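import Pool.Agent.Lib.MP_432bca_pr.Order
open MeasureTheory ProbabilityTheory Filter Topology

namespace Pool.Agent.Lib.MP_432bca_pr

set_option linter.unusedSectionVars false

/-- The punctured closed disc accumulates at each of its points. -/
theorem neBot_punctured {α : ℂ} (hα : ‖α‖ ≤ 1) :
    (𝓝[Metric.closedBall 0 1 \ {α}] α).NeBot := by
  rw [← mem_closure_iff_nhdsWithin_neBot]
  rw [Metric.mem_closure_iff]
  intro ε hε
  by_cases h0 : α = 0
  · subst h0
    refine ⟨((min ε 1 / 2 : ℝ) : ℂ), ⟨?_, ?_⟩, ?_⟩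
    · have h1 : 0 < min ε 1 := lt_min hε one_pos
      rw [Metric.mem_closedBall, dist_zero_right, Complex.norm_real, Real.norm_eq_abs, abs_of_pos (by linarith)]
      have := min_le_right ε 1
      linarith
    · have h1 : 0 < min ε 1 := lt_min hε one_pos
      simp only [Set.mem_singleton_iff, Complex.ofReal_eq_zero]
      linarith
    · have h1 : 0 < min ε 1 := lt_min hε one_pos
      rw [dist_zero_left, Complex.norm_real, Real.norm_eq_abs, abs_of_pos (by linarith)]
      have := min_le_left ε 1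
      linarith
  · have hn : 0 < ‖α‖ := norm_pos_iff.mpr h0
    have h1 : 0 < min ε 1 := lt_min hε one_pos
    set c : ℝ := min ε 1 / 2 with hc
    have hc0 : 0 < c := by rw [hc]; linarith
    have hc1 : c < 1 := by
      have := min_le_right ε 1
      rw [hc]; linarith
    have hcε : c < ε := by
      have := min_le_left ε 1
      rw [hc]; linarith
    refine ⟨((1 - c : ℝ) : ℂ) * α, ⟨?_, ?_⟩, ?_⟩
    · rw [Metric.mem_closedBall, dist_zero_right, norm_mul, Complex.norm_real, Real.norm_eq_abs,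
        abs_of_pos (by linarith)]
      calc (1 - c) * ‖α‖ ≤ 1 * 1 := by
            apply mul_le_mul (by linarith) hα hn.le zero_le_one
        _ = 1 := one_mul 1
    · simp only [Set.mem_singleton_iff]
      intro h
      have h2 : ((c : ℝ) : ℂ) * α = 0 := by
        have : ((1 - c : ℝ) : ℂ) * α = α - (c : ℂ) * α := by push_cast; ring
        rw [this] at h
        have h3 := sub_eq_self.mp h
        exact h3
      rcases mul_eq_zero.mp h2 with h3 | h3
      · have : c = 0 := by exact_mod_cast h3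
        linarith
      · exact h0 h3
    · have : α - ((1 - c : ℝ) : ℂ) * α = (c : ℂ) * α := by push_cast; ring
      rw [dist_eq_norm, this, norm_mul, Complex.norm_real, Real.norm_eq_abs, abs_of_pos hc0]
      calc c * ‖α‖ ≤ c * 1 := by apply mul_le_mul_of_nonneg_left hα hc0.le
        _ < ε := by linarith

theorem HasOrder.unique {f : ℂ → ℂ} {α : ℂ} (hα : ‖α‖ ≤ 1) {k l : ℕ} (hk : HasOrder f α k)
    (hl : HasOrder f α l) : k = l := by
  have hne := neBot_punctured hα
  have aux : ∀ k l : ℕ, k < l → HasOrder f α k → HasOrder f α l → False := by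
    rintro k l hkl ⟨c, hc, hck⟩ ⟨c', hc', hcl⟩
    have h1 : Tendsto (fun s : ℂ => (s - α) ^ (l - k)) (𝓝[Metric.closedBall 0 1 \ {α}] α) (𝓝 0) := by
      have h2 : Tendsto (fun s : ℂ => (s - α) ^ (l - k)) (𝓝 α) (𝓝 ((α - α) ^ (l - k))) :=
        ((continuous_id.sub continuous_const).pow (l - k)).tendsto α
      rw [sub_self, zero_pow (by omega)] at h2
      exact h2.mono_left nhdsWithin_le_nhds
    have h2 := hcl.mul h1
    rw [mul_zero] at h2
    have h3 : Tendsto (fun s => f s / (s - α) ^ k) (𝓝[Metric.closedBall 0 1 \ {α}] α) (𝓝 0) := by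
      refine h2.congr' ?_
      filter_upwards [self_mem_nhdsWithin] with s hs
      have hsα : s - α ≠ 0 := sub_ne_zero.mpr hs.2
      have : (s - α) ^ l = (s - α) ^ k * (s - α) ^ (l - k) := by
        rw [← pow_add]; congr 1; omega
      rw [this]
      field_simp
    exact hc (tendsto_nhds_unique hck h3)
  rcases lt_trichotomy k l with h | h | h
  · exact (aux k l h hk hl).elim
  · exact h
  · exact (aux l k h hl hk).elim

theorem hasOrder_of_analytic {f : ℂ → ℂ} {α : ℂ} (hf : AnalyticAt ℂ f α) {k : ℕ}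
    (hk : analyticOrderAt f α = (k : ℕ∞)) : HasOrder f α k := by
  rw [hf.analyticOrderAt_eq_natCast] at hk
  obtain ⟨g, hg, hg0, hfg⟩ := hk
  refine ⟨g α, hg0, ?_⟩
  have h1 : Tendsto g (𝓝[Metric.closedBall 0 1 \ {α}] α) (𝓝 (g α)) :=
    hg.continuousAt.tendsto.mono_left nhdsWithin_le_nhds
  refine h1.congr' ?_
  filter_upwards [self_mem_nhdsWithin, nhdsWithin_le_nhds hfg] with s hs hs2
  have hsα : s - α ≠ 0 := sub_ne_zero.mpr hs.2
  rw [hs2, smul_eq_mul]
  field_simp

/-- bound for difference quotients of integer powers near the unit circle. -/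
theorem diffquot_bound {α s : ℂ} (hα : ‖α‖ = 1) (hs1 : ‖s‖ ≤ 1) (hs2 : 1 / 2 ≤ ‖s‖) (hsα : s ≠ α)
    (K : ℕ) (k : ℤ) (hk : -(K:ℤ) ≤ k) :
    ‖(s ^ k - α ^ k) / (s - α)‖ ≤ |(k : ℝ)| * 2 ^ K := by
  have hd : s - α ≠ 0 := sub_ne_zero.mpr hsα
  have hs0 : s ≠ 0 := by
    rintro rfl
    rw [norm_zero] at hs2; norm_num at hs2
  have hα0 : α ≠ 0 := by
    rintro rfl
    rw [norm_zero] at hα; norm_num at hα
  have hnat : ∀ m : ℕ, ‖(s ^ m - α ^ m) / (s - α)‖ ≤ m := by
    intro m
    have h1 : (s ^ m - α ^ m) / (s - α) = ∑ i ∈ Finset.range m, s ^ i * α ^ (m - 1 - i) := by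
      rw [div_eq_iff hd]
      exact (Commute.all s α).geom_sum₂_mul m |>.symm
    rw [h1]
    calc ‖∑ i ∈ Finset.range m, s ^ i * α ^ (m - 1 - i)‖
        ≤ ∑ i ∈ Finset.range m, ‖s ^ i * α ^ (m - 1 - i)‖ := norm_sum_le _ _
      _ ≤ ∑ i ∈ Finset.range m, (1:ℝ) := by
          apply Finset.sum_le_sum
          intro i _
          rw [norm_mul, norm_pow, norm_pow, hα, one_pow, mul_one]
          exact pow_le_one₀ (norm_nonneg _) hs1
      _ = m := by simp
  obtain ⟨m, rfl | rfl⟩ := k.eq_nat_or_neg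
  · rw [zpow_natCast, zpow_natCast]
    refine (hnat m).trans ?_
    have h2 : (1:ℝ) ≤ 2 ^ K := one_le_pow₀ (by norm_num)
    have h3 : |((m : ℤ) : ℝ)| = m := by simp
    rw [h3]
    nlinarith [Nat.cast_nonneg (α := ℝ) m]
  · have hm : m ≤ K := by omega
    have h1 : (s ^ (-(m:ℤ)) - α ^ (-(m:ℤ))) / (s - α) =
        -((s ^ m - α ^ m) / (s - α)) / (s ^ m * α ^ m) := by
      rw [zpow_neg, zpow_neg, zpow_natCast, zpow_natCast]
      field_simp
      ring
    rw [h1, norm_div, norm_neg, norm_mul, norm_pow, norm_pow, hα, one_pow, mul_one]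
    have h3 : |((-(m : ℤ) : ℤ) : ℝ)| = m := by simp
    rw [h3, div_le_iff₀ (by positivity)]
    have h4 : (1:ℝ) ≤ 2 ^ K * ‖s‖ ^ m := by
      calc (1:ℝ) = 2 ^ m * (1/2) ^ m := by rw [← mul_pow]; norm_num
        _ ≤ 2 ^ K * ‖s‖ ^ m := by
          apply mul_le_mul
          · exact pow_le_pow_right₀ (by norm_num) hm
          · exact pow_le_pow_left₀ (by norm_num) hs2 m
          · positivity
          · positivity
    calc ‖(s ^ m - α ^ m) / (s - α)‖ ≤ m := hnat m
      _ = m * 1 := by ring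
      _ ≤ m * (2 ^ K * ‖s‖ ^ m) := by
          apply mul_le_mul_of_nonneg_left h4 (Nat.cast_nonneg _)
      _ = m * 2 ^ K * ‖s‖ ^ m := by ring

section Walk

variable {Ω : Type*} [MeasurableSpace Ω] (P : Measure Ω) [IsProbabilityMeasure P]
variable (S : Ω → ℤ) (hS : Measurable S) (d : ℕ) (hd : ∀ᵐ ω ∂P, -(d:ℤ) ≤ S ω)

include hS hd

theorem hasOrder_boundary (hint : Integrable (fun ω => (S ω : ℝ)) P)
    (hneg : ∫ ω, (S ω : ℝ) ∂P < 0) {α : ℂ} (hα : ‖α‖ = 1) (hG : genFun P S α = 1) :
    HasOrder (fun s => genFun P S s - 1) α 1 := by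
  have hα0 : α ≠ 0 := by
    rintro rfl
    rw [norm_zero] at hα; norm_num at hα
  -- α^S = 1 a.s.
  have hGint : genFun P S α = ∫ ω, α ^ (S ω) ∂P :=
    genFun_eq_integral P hS d hd (by rw [hα]; exact one_pos) hα.le
  have hnorm1 : ∀ k : ℤ, ‖α ^ k‖ = 1 := fun k => by rw [norm_zpow, hα, one_zpow]
  have hintα : Integrable (fun ω => α ^ (S ω)) P :=
    integrable_comp P hS d hd (fun k => α ^ k) 1 (fun k _ => (hnorm1 k).le)
  have hintre : Integrable (fun ω => (α ^ (S ω)).re) P := hintα.re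
  have hre : ∫ ω, (1 - (α ^ (S ω)).re) ∂P = 0 := by
    rw [integral_sub (integrable_const _) hintre]
    have h1 := integral_re (𝕜 := ℂ) hintα
    simp only [RCLike.re_to_complex] at h1
    rw [h1, ← hGint, hG]
    simp
  have hae : (fun ω => 1 - (α ^ (S ω)).re) =ᵐ[P] 0 := by
    have hi : Integrable (fun ω => 1 - (α ^ (S ω)).re) P := (integrable_const _).sub hintre
    rw [← integral_eq_zero_iff_of_nonneg _ hi]
    · exact hre
    · intro ω
      have h1 := Complex.re_le_norm (α ^ (S ω))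
      rw [hnorm1] at h1
      simp only [Pi.zero_apply]
      linarith
  have hone : ∀ᵐ ω ∂P, α ^ (S ω) = 1 := by
    filter_upwards [hae] with ω hω
    have h1 : (α ^ (S ω)).re = 1 := by
      simp only [Pi.zero_apply] at hω
      linarith
    have h2 := hnorm1 (S ω)
    have h3 : (α ^ (S ω)).im = 0 := by
      have h4 := Complex.sq_norm (α ^ (S ω))
      rw [h2, Complex.normSq_apply, h1] at h4
      have : (α ^ (S ω)).im * (α ^ (S ω)).im = 0 := by linarith
      exact mul_self_eq_zero.mp this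
    exact Complex.ext h1 h3
  refine ⟨∫ ω, (S ω : ℂ) * α ^ (S ω - 1) ∂P, ?_, ?_⟩
  · have h1 : ∫ ω, (S ω : ℂ) * α ^ (S ω - 1) ∂P = (∫ ω, (S ω : ℝ) ∂P : ℝ) * α⁻¹ := by
      rw [← integral_complex_ofReal, ← integral_mul_const]
      apply integral_congr_ae
      filter_upwards [hone] with ω hω
      rw [zpow_sub_one₀ hα0, hω]
      simp
    rw [h1]
    apply mul_ne_zero
    · exact_mod_cast hneg.ne
    · exact inv_ne_zero hα0
  · have h1 : Tendsto (fun s => ∫ ω, (s ^ (S ω) - α ^ (S ω)) / (s - α) ∂P)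
        (𝓝[Metric.closedBall 0 1 \ {α}] α) (𝓝 (∫ ω, (S ω : ℂ) * α ^ (S ω - 1) ∂P)) := by
      apply tendsto_integral_filter_of_dominated_convergence (fun ω => |(S ω : ℝ)| * 2 ^ d)
      · refine Eventually.of_forall (fun s => ?_)
        exact (measurable_comp_int (fun k : ℤ => (s ^ k - α ^ k) / (s - α)) hS).aestronglyMeasurable
      · have h2 : ∀ᶠ s : ℂ in 𝓝 α, 1 / 2 < ‖s‖ := by
          apply continuous_norm.continuousAt.eventually
          beta_reduce
          rw [hα]
          exact lt_mem_nhds (by norm_num)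
        filter_upwards [self_mem_nhdsWithin, nhdsWithin_le_nhds h2] with s hs hs2
        filter_upwards [hd] with ω hω
        apply diffquot_bound hα _ hs2.le hs.2 d _ hω
        have := hs.1
        rwa [Metric.mem_closedBall, dist_zero_right] at this
      · exact hint.abs.mul_const _
      · refine Eventually.of_forall (fun ω => ?_)
        have h3 := hasDerivAt_zpow (S ω) α (Or.inl hα0)
        rw [hasDerivAt_iff_tendsto_slope] at h3
        have h4 := h3.mono_left (nhdsWithin_mono α (s := Metric.closedBall 0 1 \ {α}) (t := {α}ᶜ)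
          (fun x hx => hx.2))
        refine h4.congr (fun s => ?_)
        rw [slope_def_field]
    refine h1.congr' ?_
    filter_upwards [self_mem_nhdsWithin,
      nhdsWithin_le_nhds (continuous_norm.continuousAt.eventually (lt_mem_nhds (by rw [hα]; norm_num : (0:ℝ) < ‖α‖)))]
      with s hs hs0
    have hs1 : ‖s‖ ≤ 1 := by
      have := hs.1
      rwa [Metric.mem_closedBall, dist_zero_right] at this
    rw [pow_one, integral_div]
    congr 1
    rw [integral_sub _ hintα, ← hGint, hG, genFun_eq_integral P hS d hd hs0 hs1]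
    exact integrable_comp P hS d hd (fun k => s ^ k) ((‖s‖ ^ d)⁻¹)
      (fun k hk => norm_zpow_le hs0 le_rfl hs1 d hk)

end Walk

end Pool.Agent.Lib.MP_432bca_pr
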