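import Pool.Agent.Lib.MP_432bca_pr.Indep
open MeasureTheory ProbabilityTheory Filter Topology

namespace Pool.Agent.Lib.MP_432bca_pr

set_option linter.unusedSectionVars false

variable {Ω : Type*} [MeasurableSpace Ω] (P : Measure Ω) [IsProbabilityMeasure P]

/-- Uniform version of `integral_E`, including boundary points with `t = 0`. -/
theorem integral_E' {Y : Ω → ℤ} (hY : Measurable Y) (K : ℕ) (hK : ∀ᵐ ω ∂P, -(K:ℤ) ≤ Y ω)
    {β : ℂ} (h0 : 0 < ‖β‖) (h1 : ‖β‖ ≤ 1) (t : ℕ) (ht : ‖β‖ < 1 ∨ t = 0) (n : ℤ) :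
    ∫ ω, E β t (n + Y ω) ∂P = iteratedDeriv t (fun s => s ^ n * genFun P Y s) β := by
  rcases ht with ht | ht
  · exact integral_E P hY K hK h0 ht t n
  · subst ht
    have hβ : β ≠ 0 := norm_pos_iff.mp h0
    rw [iteratedDeriv_zero, genFun_eq_integral P hY K hK h0 h1, ← integral_const_mul]
    apply integral_congr_ae
    refine Eventually.of_forall (fun ω => ?_)
    simp only [E_zero]
    rw [zpow_add₀ hβ]

theorem E_bounded' {β : ℂ} (h0 : 0 < ‖β‖) (h1 : ‖β‖ ≤ 1) (t : ℕ) (ht : ‖β‖ < 1 ∨ t = 0) (K : ℕ) :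
    ∃ C : ℝ, ∀ n : ℤ, -(K:ℤ) ≤ n → ‖E β t n‖ ≤ C := by
  rcases ht with ht | ht
  · exact E_bounded h0 ht t K
  · subst ht
    refine ⟨(‖β‖ ^ K)⁻¹, fun n hn => ?_⟩
    rw [E_zero]
    exact norm_zpow_le h0 le_rfl h1 K hn

/-- head sum with the convention `0` for the last index -/
def headSum {n : ℕ} (X : Fin (n + 1) → Ω → ℤ) (j : Fin (n + 1)) (ω : Ω) : ℤ :=
  if j = Fin.last n then 0 else X (Fin.last n) ω + ∑ i ∈ Finset.Iio j, X i ω

/-- head sum `X_N + X_1 + ⋯ + X_{j-1}` -/
def tailSum {n : ℕ} (X : Fin (n + 1) → Ω → ℤ) (j : Fin (n + 1)) (ω : Ω) : ℤ :=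
  X (Fin.last n) ω + ∑ i ∈ Finset.Iio j, X i ω

theorem measurable_tailSum {n : ℕ} {X : Fin (n + 1) → Ω → ℤ} (hX : ∀ j, Measurable (X j))
    (j : Fin (n + 1)) : Measurable (tailSum X j) := by
  unfold tailSum
  exact (hX _).add (Finset.measurable_sum _ (fun i _ => hX i))

theorem measurable_headSum {n : ℕ} {X : Fin (n + 1) → Ω → ℤ} (hX : ∀ j, Measurable (X j))
    (j : Fin (n + 1)) : Measurable (headSum X j) := by
  unfold headSum
  split_ifs
  · exact measurable_const
  · exact measurable_tailSum hX j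

theorem weight_eq {n : ℕ} (X : Fin (n + 1) → Ω → ℤ) (m : Fin (n + 1) → ℤ) (j : Fin (n + 1)) (s : ℂ) :
    weight P X m j s = s ^ (m j) * genFun P (headSum X j) s := by
  unfold weight headSum
  split_ifs with h
  · have : genFun P (fun _ : Ω => (0:ℤ)) s = 1 := by
      unfold genFun
      rw [tsum_eq_single 0]
      · simp
      · intro k hk
        have : {ω : Ω | (0:ℤ) = k} = ∅ := by
          ext ω
          simp [hk.symm]
        rw [this]
        simp
    rw [this, mul_one]
  · rfl

theorem phi_eq {n : ℕ} (X : Fin (n + 1) → Ω → ℤ) (m : Fin (n + 1) → ℤ) (j : Fin (n + 1)) (c : ℕ)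
    {s : ℂ} (hs : s ≠ 0) :
    phi P X m j c s = ∑ r ∈ Finset.range ((-(m j)).toNat - c), (distFun P (X j) (m j + r) : ℂ) *
      (s ^ (m j + r + c) * genFun P (headSum X j) s) := by
  unfold phi
  rw [weight_eq, Finset.mul_sum]
  apply Finset.sum_congr rfl
  intro r _
  have : s ^ (m j + r + c) = s ^ (m j) * s ^ (r + c) := by
    rw [add_assoc, zpow_add₀ hs]
    congr 1
  rw [this]
  ring

theorem iteratedDeriv_phi {n : ℕ} {X : Fin (n + 1) → Ω → ℤ} (hX : ∀ j, Measurable (X j))
    (m : Fin (n + 1) → ℤ) (j : Fin (n + 1)) (c : ℕ) (K : ℕ) (hK : ∀ᵐ ω ∂P, -(K:ℤ) ≤ headSum X j ω)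
    {β : ℂ} (h0 : 0 < ‖β‖) (h1 : ‖β‖ ≤ 1) (t : ℕ) (ht : ‖β‖ < 1 ∨ t = 0) :
    iteratedDeriv t (phi P X m j c) β =
      ∑ r ∈ Finset.range ((-(m j)).toNat - c), (distFun P (X j) (m j + r) : ℂ) *
        ∫ ω, E β t (m j + r + c + headSum X j ω) ∂P := by
  have hβ : β ≠ 0 := norm_pos_iff.mp h0
  simp_rw [integral_E' P (measurable_headSum hX j) K hK h0 h1 t ht]
  rcases ht with ht | ht
  · have h2 : phi P X m j c =ᶠ[𝓝 β] fun s => ∑ r ∈ Finset.range ((-(m j)).toNat - c),
        (distFun P (X j) (m j + r) : ℂ) * (s ^ (m j + r + c) * genFun P (headSum X j) s) := by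
      filter_upwards [isOpen_ne.mem_nhds hβ] with s hs
      exact phi_eq P X m j c hs
    rw [h2.iteratedDeriv_eq, iteratedDeriv_fun_sum]
    · apply Finset.sum_congr rfl
      intro r _
      rw [iteratedDeriv_const_mul_field]
    · intro r _
      exact (analyticAt_const.mul ((analyticAt_zpow hβ _).mul
        (analyticAt_genFun P (measurable_headSum hX j) K hK h0 ht))).contDiffAt
  · subst ht
    simp only [iteratedDeriv_zero]
    exact phi_eq P X m j c hβ

/-- Complex version of the maximum principle. -/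
theorem maxPrinciple_complex (n : ℕ) (X : Fin (n+1) → Ω → ℤ) (hX : ∀ j, Measurable (X j))
    (m : Fin (n+1) → ℤ) (hm : ∀ j, ∀ᵐ ω ∂P, m j ≤ X j ω)
    (hint : ∀ j, Integrable (fun ω => (X j ω : ℝ)) P)
    (hdrift : ∑ j, ∫ ω, (X j ω : ℝ) ∂P < 0)
    (y : Fin (n+1) → ℤ → ℂ) (C : ℝ) (hC : ∀ j k, ‖y j k‖ ≤ C)
    (hzero : ∀ j k, m j ≤ k → k < 0 → y j k = 0)
    (hrec : ∀ j, ∀ k : ℤ, 0 ≤ k → y (j+1) k = ∫ ω, y j (k + X j ω) ∂P) :
    ∀ j, ∀ k : ℤ, 0 ≤ k → y j k = 0 := by
  have hi : ∀ j, ∀ k : ℤ, Integrable (fun ω => y j (k + X j ω)) P := by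
    intro j k
    refine Integrable.of_bound (C := C) ?_ (Eventually.of_forall (fun ω => hC _ _))
    exact (measurable_comp_int (fun l : ℤ => y j (k + l)) (hX j)).aestronglyMeasurable
  have hre : ∀ j, ∀ k : ℤ, 0 ≤ k → (y (j+1) k).re = ∫ ω, (y j (k + X j ω)).re ∂P := by
    intro j k hk
    have := integral_re (𝕜 := ℂ) (hi j k)
    simp only [RCLike.re_to_complex] at this
    rw [this, ← hrec j k hk]
  have him : ∀ j, ∀ k : ℤ, 0 ≤ k → (y (j+1) k).im = ∫ ω, (y j (k + X j ω)).im ∂P := by
    intro j k hk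
    have := integral_im (𝕜 := ℂ) (hi j k)
    simp only [RCLike.im_to_complex] at this
    rw [this, ← hrec j k hk]
  have hreC : ∀ j k, |(y j k).re| ≤ C := fun j k => (Complex.abs_re_le_norm _).trans (hC j k)
  have himC : ∀ j k, |(y j k).im| ≤ C := fun j k => (Complex.abs_im_le_norm _).trans (hC j k)
  have r1 := maxPrinciple P n X hX m hm hint hdrift (fun j k => (y j k).re) C hreC
    (fun j k h1 h2 => by rw [hzero j k h1 h2]; rfl) hre
  have r2 := maxPrinciple P n X hX m hm hint hdrift (fun j k => -(y j k).re) C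
    (fun j k => by rw [abs_neg]; exact hreC j k)
    (fun j k h1 h2 => by rw [hzero j k h1 h2]; simp) (fun j k hk => by
      rw [hre j k hk, integral_neg])
  have r3 := maxPrinciple P n X hX m hm hint hdrift (fun j k => (y j k).im) C himC
    (fun j k h1 h2 => by rw [hzero j k h1 h2]; rfl) him
  have r4 := maxPrinciple P n X hX m hm hint hdrift (fun j k => -(y j k).im) C
    (fun j k => by rw [abs_neg]; exact himC j k)
    (fun j k h1 h2 => by rw [hzero j k h1 h2]; simp) (fun j k hk => by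
      rw [him j k hk, integral_neg])
  intro j k hk
  apply Complex.ext
  · have h1 := r1 j k hk
    have h2 := r2 j k hk
    simp only [Complex.zero_re]
    linarith
  · have h1 := r3 j k hk
    have h2 := r4 j k hk
    simp only [Complex.zero_im]
    linarith

theorem indep_integral {T X : Ω → ℤ} (hT : Measurable T) (hX : Measurable X) (h : IndepFun T X P)
    (f : ℤ → ℂ) (C : ℝ) (hC : ∀ k, ‖f k‖ ≤ C) :
    ∫ ω, f (T ω + X ω) ∂P = ∫ ω, (∫ ω', f (T ω' + X ω) ∂P) ∂P := by
  have h1 := (indepFun_iff_map_prod_eq_prod_map_map hT.aemeasurable hX.aemeasurable).mp h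
  have hTp := Measure.isProbabilityMeasure_map (μ := P) hT.aemeasurable
  have hXp := Measure.isProbabilityMeasure_map (μ := P) hX.aemeasurable
  have hmeas : Measurable (fun p : ℤ × ℤ => f (p.1 + p.2)) := measurable_from_top (f := f) |>.comp
    (measurable_fst.add measurable_snd)
  have h2 : ∫ ω, f (T ω + X ω) ∂P = ∫ p, f (p.1 + p.2) ∂((P.map T).prod (P.map X)) := by
    rw [← h1, integral_map (hT.prodMk hX).aemeasurable hmeas.aestronglyMeasurable]
  have hint : Integrable (fun p : ℤ × ℤ => f (p.1 + p.2)) ((P.map T).prod (P.map X)) :=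
    Integrable.of_bound (C := C) hmeas.aestronglyMeasurable (Eventually.of_forall (fun p => hC _))
  rw [h2, integral_prod_symm _ hint]
  rw [integral_map hX.aemeasurable (measurable_from_top (f := _)).aestronglyMeasurable]
  apply integral_congr_ae
  refine Eventually.of_forall (fun ω => ?_)
  simp only
  rw [integral_map hT.aemeasurable (measurable_from_top (f := fun k => f (k + X ω))).aestronglyMeasurable]

/-- The key vanishing statement. -/
theorem lambda_zero (n : ℕ) (X : Fin (n+1) → Ω → ℤ) (hX : ∀ j, Measurable (X j))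
    (hind : iIndepFun X P)
    (m : Fin (n+1) → ℤ) (hm1 : ∀ j, P {ω | X j ω = m j} ≠ 0) (hm : ∀ j, ∀ᵐ ω ∂P, m j ≤ X j ω)
    (hm0 : ∀ j, m j ≤ 0)
    (hint : ∀ j, Integrable (fun ω => (X j ω : ℝ)) P)
    (hdrift : ∑ j, ∫ ω, (X j ω : ℝ) ∂P < 0)
    {ι : Type*} [Fintype ι] (a : ι → ℂ) (τ : ι → ℕ) (ha0 : ∀ r, 0 < ‖a r‖) (ha1 : ∀ r, ‖a r‖ ≤ 1)
    (haτ : ∀ r, ‖a r‖ < 1 ∨ τ r = 0)
    (hErec : ∀ r, ∀ k : ℤ, ∫ ω, E (a r) (τ r) (k + total X ω) ∂P = E (a r) (τ r) k)
    (u : ι → ℂ)
    (hu : ∀ j, ∀ c < (-(m j)).toNat, ∑ r, u r * iteratedDeriv (τ r) (phi P X m j c) (a r) = 0) :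
    ∀ k : ℕ, ∑ r, u r * E (a r) (τ r) (k : ℤ) = 0 := by
  classical
  have hsumnonpos : ∑ j, m j ≤ 0 := Finset.sum_nonpos (fun j _ => hm0 j)
  set d : ℕ := (-(∑ j, m j)).toNat with hd
  have hdZ : (d : ℤ) = -(∑ j, m j) := by omega
  have hsub : ∀ s : Finset (Fin (n+1)), -(d:ℤ) ≤ ∑ i ∈ s, m i := by
    intro s
    have h1 : ∑ i, m i ≤ ∑ i ∈ s, m i := by
      rw [← Finset.sum_add_sum_compl s m]
      have := Finset.sum_nonpos (s := sᶜ) (f := m) (fun i _ => hm0 i)
      linarith
    rw [hdZ]; linarith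
  have hmd : ∀ j, -(d:ℤ) ≤ m j := by
    intro j
    have := hsub {j}
    simpa using this
  have haall : ∀ᵐ ω ∂P, ∀ j, m j ≤ X j ω := ae_all_iff.mpr hm
  have htail_ins : ∀ j ω, tailSum X j ω = if j = Fin.last n then X (Fin.last n) ω + ∑ i ∈ Finset.Iio j, X i ω
      else ∑ i ∈ insert (Fin.last n) (Finset.Iio j), X i ω := by
    intro j ω
    split_ifs with hj
    · rfl
    · rw [Finset.sum_insert]
      · rfl
      · simp only [Finset.mem_Iio, not_lt]
        exact Fin.le_last j
  have hlast_ins : (Finset.univ : Finset (Fin (n+1))) = insert (Fin.last n) (Finset.Iio (Fin.last n)) := by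
    ext i
    simp only [Finset.mem_univ, Finset.mem_insert, Finset.mem_Iio, true_iff]
    rcases Fin.le_last i |>.lt_or_eq with h | h
    · right; exact h
    · left; exact h
  have htail_last : ∀ ω, tailSum X (Fin.last n) ω = total X ω := by
    intro ω
    unfold tailSum total
    rw [hlast_ins, Finset.sum_insert (by simp)]
  have htail_ge : ∀ j, ∀ᵐ ω ∂P, -(d:ℤ) ≤ tailSum X j ω := by
    intro j
    filter_upwards [haall] with ω hω
    have hge : ∀ s : Finset (Fin (n+1)), -(d:ℤ) ≤ ∑ i ∈ s, X i ω := by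
      intro s
      exact (hsub s).trans (Finset.sum_le_sum (fun i _ => hω i))
    by_cases hj : j = Fin.last n
    · subst hj
      rw [htail_last]
      exact hge _
    · rw [htail_ins, if_neg hj]
      exact hge _
  have hhead_ge : ∀ j, ∀ᵐ ω ∂P, -(d:ℤ) ≤ headSum X j ω := by
    intro j
    filter_upwards [htail_ge j] with ω hω
    unfold headSum
    split_ifs
    · omega
    · exact hω
  set K : ℕ := 2 * d with hK
  -- bounds
  have hbE : ∀ r, ∃ C : ℝ, ∀ k : ℤ, -(K:ℤ) ≤ k → ‖E (a r) (τ r) k‖ ≤ C :=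
    fun r => E_bounded' (ha0 r) (ha1 r) (τ r) (haτ r) K
  choose Cr hCr using hbE
  set lam : ℤ → ℂ := fun k => if -(K:ℤ) ≤ k then ∑ r, u r * E (a r) (τ r) k else 0 with hlam
  set C : ℝ := ∑ r, ‖u r‖ * |Cr r| with hC
  have hC0 : 0 ≤ C := Finset.sum_nonneg (fun r _ => by positivity)
  have hlamC : ∀ k, ‖lam k‖ ≤ C := by
    intro k
    simp only [hlam]
    split_ifs with hk
    · refine (norm_sum_le _ _).trans (Finset.sum_le_sum (fun r _ => ?_))
      rw [norm_mul]
      exact mul_le_mul_of_nonneg_left ((hCr r k hk).trans (le_abs_self _)) (norm_nonneg _)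
    · rw [norm_zero]; exact hC0
  have hlamint : ∀ (Y : Ω → ℤ), Measurable Y → (∀ᵐ ω ∂P, -(d:ℤ) ≤ Y ω) → ∀ k : ℤ, -(d:ℤ) ≤ k →
      ∫ ω, lam (k + Y ω) ∂P = ∑ r, u r * ∫ ω, E (a r) (τ r) (k + Y ω) ∂P := by
    intro Y hY hYd k hk
    have h1 : ∫ ω, lam (k + Y ω) ∂P = ∫ ω, ∑ r, u r * E (a r) (τ r) (k + Y ω) ∂P := by
      apply integral_congr_ae
      filter_upwards [hYd] with ω hω
      simp only [hlam]
      rw [if_pos (by omega)]
    rw [h1, integral_finsetSum]
    · apply Finset.sum_congr rfl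
      intro r _
      rw [integral_const_mul]
    · intro r _
      apply Integrable.const_mul
      refine Integrable.of_bound (C := Cr r) ?_ ?_
      · exact (measurable_comp_int (fun l : ℤ => E (a r) (τ r) (k + l)) hY).aestronglyMeasurable
      · filter_upwards [hYd] with ω hω
        exact hCr r _ (by omega)
  set y : Fin (n+1) → ℤ → ℂ := fun j k => ∫ ω, lam (k + tailSum X j ω) ∂P with hy
  have hyC : ∀ j k, ‖y j k‖ ≤ C := by
    intro j k
    simp only [hy]
    have := norm_integral_le_of_norm_le_const (μ := P) (f := fun ω => lam (k + tailSum X j ω)) (C := C)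
      (Eventually.of_forall (fun ω => hlamC _))
    simpa using this
  have hylast : ∀ k : ℤ, -(d:ℤ) ≤ k → y (Fin.last n) k = lam k := by
    intro k hk
    simp only [hy]
    rw [hlamint _ (measurable_tailSum hX _) (htail_ge _) k hk]
    simp only [htail_last, hErec, hlam]
    rw [if_pos (by omega)]
  have hyhead : ∀ j, ∀ k : ℤ, -(d:ℤ) ≤ k → ∫ ω, lam (k + headSum X j ω) ∂P = y j k := by
    intro j k hk
    by_cases hj : j = Fin.last n
    · subst hj
      rw [hylast k hk]
      simp [headSum]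
    · simp only [hy]
      have : headSum X j = tailSum X j := by
        funext ω
        simp [headSum, tailSum, hj]
      rw [this]
  -- vanishing
  have hF : ∀ j, distFun P (X j) (m j) ≠ 0 := by
    intro j h
    unfold distFun at h
    rw [measureReal_def, ENNReal.toReal_eq_zero_iff] at h
    rcases h with h | h
    · apply hm1 j
      rw [← nonpos_iff_eq_zero, ← h]
      apply measure_mono
      intro ω hω
      exact le_of_eq hω
    · exact measure_ne_top _ _ h
  have hrel : ∀ j, ∀ c < (-(m j)).toNat,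
      ∑ x ∈ Finset.range ((-(m j)).toNat - c), (distFun P (X j) (m j + x) : ℂ) * y j (m j + x + c) = 0 := by
    intro j c hc
    rw [← hu j c hc]
    have h1 : ∀ r, u r * iteratedDeriv (τ r) (phi P X m j c) (a r) =
        ∑ x ∈ Finset.range ((-(m j)).toNat - c), (distFun P (X j) (m j + x) : ℂ) *
          (u r * ∫ ω, E (a r) (τ r) (m j + x + c + headSum X j ω) ∂P) := by
      intro r
      rw [iteratedDeriv_phi P hX m j c d (hhead_ge j) (ha0 r) (ha1 r) (τ r) (haτ r), Finset.mul_sum]
      apply Finset.sum_congr rfl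
      intro x _
      ring
    rw [Finset.sum_congr rfl (fun r _ => h1 r), Finset.sum_comm]
    apply Finset.sum_congr rfl
    intro x _
    have hk : -(d:ℤ) ≤ m j + x + c := by have := hmd j; omega
    rw [← Finset.mul_sum, ← hlamint _ (measurable_headSum hX j) (hhead_ge j) _ hk, hyhead j _ hk]
  have hvan' : ∀ j, ∀ l : ℕ, 1 ≤ l → (l : ℤ) ≤ -(m j) → y j (-(l:ℤ)) = 0 := by
    intro j l
    induction l using Nat.strong_induction_on with
    | _ l ih =>
      intro hl1 hl2
      have h1 := hrel j ((-(m j)).toNat - l) (by omega)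
      have h2 : (-(m j)).toNat - ((-(m j)).toNat - l) = l := by omega
      rw [h2] at h1
      obtain ⟨l', rfl⟩ : ∃ l', l = l' + 1 := ⟨l - 1, by omega⟩
      rw [Finset.sum_range_succ'] at h1
      have h3 : ∑ x ∈ Finset.range l', (distFun P (X j) (m j + ((x + 1 : ℕ) : ℤ)) : ℂ) *
          y j (m j + ((x + 1 : ℕ) : ℤ) + (((-(m j)).toNat - (l' + 1) : ℕ) : ℤ)) = 0 := by
        apply Finset.sum_eq_zero
        intro x hx
        have hx' := Finset.mem_range.mp hx
        have h4 : m j + ((x + 1 : ℕ) : ℤ) + (((-(m j)).toNat - (l' + 1) : ℕ) : ℤ) = -((l' - x : ℕ) : ℤ) := by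
          omega
        rw [h4, ih (l' - x) (by omega) (by omega) (by omega), mul_zero]
      rw [h3, zero_add] at h1
      have h5 : m j + ((0 : ℕ) : ℤ) + (((-(m j)).toNat - (l' + 1) : ℕ) : ℤ) = -((l' + 1 : ℕ) : ℤ) := by
        omega
      rw [h5] at h1
      rcases mul_eq_zero.mp h1 with h6 | h6
      · exfalso
        apply hF j
        simpa using h6
      · exact h6
  have hvan : ∀ j k, m j ≤ k → k < 0 → y j k = 0 := by
    intro j k h1 h2
    have := hvan' j (-k).toNat (by omega) (by omega)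
    have h3 : -(((-k).toNat : ℕ) : ℤ) = k := by omega
    rwa [h3] at this
  have hyrec : ∀ j, ∀ k : ℤ, 0 ≤ k → y (j+1) k = ∫ ω, y j (k + X j ω) ∂P := by
    intro j k hk
    by_cases hj : j = Fin.last n
    · subst hj
      rw [Fin.last_add_one]
      have h1 : ∫ ω, y (Fin.last n) (k + X (Fin.last n) ω) ∂P = ∫ ω, lam (k + X (Fin.last n) ω) ∂P := by
        apply integral_congr_ae
        filter_upwards [haall] with ω hω
        apply hylast
        have := hmd (Fin.last n)
        have := hω (Fin.last n)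
        omega
      rw [h1]
      simp only [hy]
      apply integral_congr_ae
      refine Eventually.of_forall (fun ω => ?_)
      simp only [tailSum]
      have h0 : Finset.Iio (0 : Fin (n+1)) = ∅ := by
        ext i; simp
      rw [h0, Finset.sum_empty, add_zero]
    · have hlt : j < Fin.last n := lt_of_le_of_ne (Fin.le_last j) hj
      have hj1 : Finset.Iio (j+1) = insert j (Finset.Iio j) := by
        ext i
        simp only [Finset.mem_Iio, Finset.mem_insert]
        rw [Fin.lt_def, Fin.lt_def, Fin.ext_iff, Fin.val_add_one_of_lt hlt]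
        omega
      have hts : ∀ ω, tailSum X (j+1) ω = tailSum X j ω + X j ω := by
        intro ω
        simp only [tailSum]
        rw [hj1, Finset.sum_insert (by simp)]
        ring
      have hindep : IndepFun (tailSum X j) (X j) P := by
        have h1 := iIndepFun.indepFun_finsetSum_of_notMem hind hX
          (s := insert (Fin.last n) (Finset.Iio j)) (i := j) (by
            simp only [Finset.mem_insert, Finset.mem_Iio, lt_self_iff_false, or_false]
            exact hj)
        have h2 : tailSum X j = ∑ i ∈ insert (Fin.last n) (Finset.Iio j), X i := by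
          funext ω
          rw [htail_ins, if_neg hj, Finset.sum_apply]
        rw [h2]
        exact h1
      have h3 := indep_integral P (measurable_tailSum hX j) (hX j) hindep (fun l => lam (k + l)) C
        (fun l => hlamC _)
      simp only [hy]
      simp only [hts]
      rw [h3]
      apply integral_congr_ae
      refine Eventually.of_forall (fun ω => ?_)
      simp only
      apply integral_congr_ae
      refine Eventually.of_forall (fun ω' => ?_)
      simp only
      congr 1
      ring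
  have hfin := maxPrinciple_complex P n X hX m hm hint hdrift y C hyC hvan hyrec
  intro k
  have h1 := hfin (Fin.last n) (k : ℤ) (by omega)
  rw [hylast _ (by omega)] at h1
  simp only [hlam] at h1
  rw [if_pos (by omega)] at h1
  exact h1

end Pool.Agent.Lib.MP_432bca_pr
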