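import Mathlib
open MeasureTheory ProbabilityTheory Filter Topology

namespace Pool.Agent.Lib.MP_432bca_pr

/-- The generating function `G_Y(s) = ∑_{k ∈ ℤ} s^k P(Y = k)` of an integer-valued random
variable `Y`. -/
noncomputable def genFun {Ω : Type*} [MeasurableSpace Ω] (P : Measure Ω) (Y : Ω → ℤ) (s : ℂ) : ℂ :=
  ∑' k : ℤ, s ^ k * ((P.real {ω | Y ω = k} : ℝ) : ℂ)

/-- The distribution function `F_Y(k) = P(Y ≤ k)`. -/
noncomputable def distFun {Ω : Type*} [MeasurableSpace Ω] (P : Measure Ω) (Y : Ω → ℤ) (k : ℤ) : ℝ :=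
  P.real {ω | Y ω ≤ k}

/-- `f` has at the point `α` of the closed unit disc a zero of order exactly `k`, relative to the
closed unit disc: `f(s) / (s - α)^k` has a finite nonzero limit when `s → α`, `s ≠ α`, `|s| ≤ 1`. -/
def HasOrder (f : ℂ → ℂ) (α : ℂ) (k : ℕ) : Prop :=
  ∃ c : ℂ, c ≠ 0 ∧
    Tendsto (fun s => f s / (s - α) ^ k) (𝓝[Metric.closedBall 0 1 \ {α}] α) (𝓝 c)

/-! The random variables are `X 0, …, X n`, standing for `X_1, …, X_N` with `N = n + 1`; so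
`Fin.last n` stands for the index `N`. -/

/-- The weight `w_j(s)`: `w_N(s) = s^{m_N}`, and `w_j(s) = s^{m_j} G_{X_N + X_1 + ⋯ + X_{j-1}}(s)`
for `1 ≤ j ≤ N - 1`. -/
noncomputable def weight {Ω : Type*} [MeasurableSpace Ω] (P : Measure Ω) {n : ℕ}
    (X : Fin (n + 1) → Ω → ℤ) (m : Fin (n + 1) → ℤ) (j : Fin (n + 1)) (s : ℂ) : ℂ :=
  if j = Fin.last n then s ^ (m j)
  else s ^ (m j) * genFun P (fun ω => X (Fin.last n) ω + ∑ i ∈ Finset.Iio j, X i ω) s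

/-- `φ_{j,c}(s) = w_j(s) ∑_{r=0}^{-m_j-1-c} s^{r+c} F_{X_j}(m_j + r)`. -/
noncomputable def phi {Ω : Type*} [MeasurableSpace Ω] (P : Measure Ω) {n : ℕ}
    (X : Fin (n + 1) → Ω → ℤ) (m : Fin (n + 1) → ℤ) (j : Fin (n + 1)) (c : ℕ) (s : ℂ) : ℂ :=
  weight P X m j s *
    ∑ r ∈ Finset.range ((-(m j)).toNat - c), s ^ (r + c) * (distFun P (X j) (m j + r) : ℂ)

/-- `ν_{j,c} = ∑_{r=0}^{-m_j-1-c} F_{X_j}(m_j + r)`. -/
noncomputable def nu {Ω : Type*} [MeasurableSpace Ω] (P : Measure Ω) {n : ℕ}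
    (X : Fin (n + 1) → Ω → ℤ) (m : Fin (n + 1) → ℤ) (j : Fin (n + 1)) (c : ℕ) : ℝ :=
  ∑ r ∈ Finset.range ((-(m j)).toNat - c), distFun P (X j) (m j + r)

/-- The sum `S_N = X_1 + ⋯ + X_N`. -/
def total {Ω : Type*} {n : ℕ} (X : Fin (n + 1) → Ω → ℤ) (ω : Ω) : ℤ := ∑ j, X j ω

/-- The zeros of `G_{S_N}(s) - 1` in `{|s| ≤ 1} \ {0, 1}`. -/
def zeroSet {Ω : Type*} [MeasurableSpace Ω] (P : Measure Ω) {n : ℕ}
    (X : Fin (n + 1) → Ω → ℤ) : Set ℂ :=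
  {α : ℂ | ‖α‖ ≤ 1 ∧ α ≠ 0 ∧ α ≠ 1 ∧ genFun P (total X) α - 1 = 0}

/-- The multiplicity of `α` as a zero of `G_{S_N}(s) - 1` (relative to the closed unit disc). -/
noncomputable def mult {Ω : Type*} [MeasurableSpace Ω] (P : Measure Ω) {n : ℕ}
    (X : Fin (n + 1) → Ω → ℤ) (α : ℂ) : ℕ :=
  sInf {k : ℕ | HasOrder (fun s => genFun P (total X) s - 1) α k}

/-- Index set of the rows of `𝐀`: the pairs `(α, t)` with `α` a zero and `0 ≤ t < multiplicity`,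
and one more index for the last row. -/
abbrev Row {Ω : Type*} [MeasurableSpace Ω] (P : Measure Ω) {n : ℕ}
    (X : Fin (n + 1) → Ω → ℤ) : Type :=
  (Σ α : zeroSet P X, Fin (mult P X α)) ⊕ Unit

/-- Index set of the columns of `𝐀`: the pairs `(j, c)` with `0 ≤ c ≤ -m_j - 1`. -/
abbrev Col {n : ℕ} (m : Fin (n + 1) → ℤ) : Type :=
  Σ j : Fin (n + 1), Fin ((-(m j)).toNat)

/-- The matrix `𝐀`. -/
noncomputable def matA {Ω : Type*} [MeasurableSpace Ω] (P : Measure Ω) {n : ℕ}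
    (X : Fin (n + 1) → Ω → ℤ) (m : Fin (n + 1) → ℤ) : Matrix (Row P X) (Col m) ℂ :=
  fun row col => match row with
    | Sum.inl ⟨α, t⟩ => iteratedDeriv (t : ℕ) (phi P X m col.1 (col.2 : ℕ)) (α : ℂ)
    | Sum.inr _ => ((nu P X m col.1 (col.2 : ℕ) : ℝ) : ℂ)

end Pool.Agent.Lib.MP_432bca_pr
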