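import Mathlib
open MeasureTheory ProbabilityTheory Filter Topology

namespace Pool.Agent.Lib.MP_432bca_pr

theorem differentiableOn_iteratedDeriv {f : ℂ → ℂ} {U : Set ℂ} (hU : IsOpen U)
    (hf : DifferentiableOn ℂ f U) (t : ℕ) : DifferentiableOn ℂ (iteratedDeriv t f) U := by
  induction t with
  | zero => simpa using hf
  | succ t ih =>
    rw [iteratedDeriv_succ]
    exact ih.deriv hU

theorem tendstoLocallyUniformlyOn_iteratedDeriv {ι : Type*} {F : ι → ℂ → ℂ} {U : Set ℂ} {u : ι → ℝ}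
    (hu : Summable u) (hf : ∀ i, DifferentiableOn ℂ (F i) U) (hU : IsOpen U)
    (hF_le : ∀ i w, w ∈ U → ‖F i w‖ ≤ u i) (t : ℕ) :
    TendstoLocallyUniformlyOn (fun (s : Finset ι) => iteratedDeriv t (fun w => ∑ i ∈ s, F i w))
      (iteratedDeriv t (fun w => ∑' i, F i w)) atTop U := by
  induction t with
  | zero =>
    simp only [iteratedDeriv_zero]
    exact (tendstoUniformlyOn_tsum hu hF_le).tendstoLocallyUniformlyOn
  | succ t ih =>
    have := ih.deriv (Eventually.of_forall (fun s =>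
      differentiableOn_iteratedDeriv hU (DifferentiableOn.fun_sum fun i _ => hf i) t)) hU
    simp only [iteratedDeriv_succ]
    exact this

theorem hasSum_iteratedDeriv {ι : Type*} {F : ι → ℂ → ℂ} {U : Set ℂ} {u : ι → ℝ}
    (hu : Summable u) (hf : ∀ i, DifferentiableOn ℂ (F i) U) (hU : IsOpen U)
    (hF_le : ∀ i w, w ∈ U → ‖F i w‖ ≤ u i) (t : ℕ) {z : ℂ} (hz : z ∈ U) :
    HasSum (fun i => iteratedDeriv t (F i) z) (iteratedDeriv t (fun w => ∑' i, F i w) z) := by
  have h := (tendstoLocallyUniformlyOn_iteratedDeriv hu hf hU hF_le t).tendsto_at hz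
  rw [HasSum]
  refine h.congr (fun s => ?_)
  rw [iteratedDeriv_fun_sum]
  intro i _
  exact ((hf i).contDiffOn hU).contDiffAt (hU.mem_nhds hz)

/-- derivative functional on powers -/
noncomputable def E (β : ℂ) (t : ℕ) (n : ℤ) : ℂ := iteratedDeriv t (fun s : ℂ => s ^ n) β

theorem E_zero (β : ℂ) (n : ℤ) : E β 0 n = β ^ n := by simp [E]

/-- An annulus neighbourhood. -/
def annulus (β : ℂ) : Set ℂ := {w : ℂ | ‖β‖ / 2 < ‖w‖ ∧ ‖w‖ < 1}

theorem isOpen_annulus (β : ℂ) : IsOpen (annulus β) := by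
  apply IsOpen.inter
  · exact isOpen_lt continuous_const continuous_norm
  · exact isOpen_lt continuous_norm continuous_const

theorem mem_annulus {β : ℂ} (h0 : 0 < ‖β‖) (h1 : ‖β‖ < 1) : β ∈ annulus β :=
  ⟨by linarith, h1⟩

theorem norm_zpow_le {w : ℂ} {ρ : ℝ} (hρ : 0 < ρ) (h0 : ρ ≤ ‖w‖) (h1 : ‖w‖ ≤ 1) (K : ℕ) {n : ℤ}
    (hn : -(K:ℤ) ≤ n) : ‖w ^ n‖ ≤ (ρ ^ K)⁻¹ := by
  rw [norm_zpow]
  have hw : 0 < ‖w‖ := lt_of_lt_of_le hρ h0
  have h2 : ‖w‖ ^ n ≤ ‖w‖ ^ (-(K:ℤ)) := by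
    exact zpow_le_zpow_right_of_le_one₀ hw h1 hn
  refine h2.trans ?_
  rw [zpow_neg, zpow_natCast]
  exact inv_anti₀ (pow_pos hρ K) (pow_le_pow_left₀ hρ.le h0 K)

theorem differentiableOn_zpow_annulus (β : ℂ) (n : ℤ) :
    DifferentiableOn ℂ (fun s : ℂ => s ^ n) (annulus β) := by
  intro w hw
  have : w ≠ 0 := by
    intro h
    have := hw.1
    rw [h, norm_zero] at this
    have := norm_nonneg β
    linarith
  exact (differentiableAt_zpow.mpr (Or.inl this)).differentiableWithinAt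

theorem E_bounded {β : ℂ} (h0 : 0 < ‖β‖) (h1 : ‖β‖ < 1) (t : ℕ) (K : ℕ) :
    ∃ C : ℝ, ∀ n : ℤ, -(K:ℤ) ≤ n → ‖E β t n‖ ≤ C := by
  set r : ℝ := min (‖β‖ / 2) ((1 - ‖β‖) / 2) / 2 with hr
  have hrpos : 0 < r := by
    rw [hr]
    have : 0 < min (‖β‖ / 2) ((1 - ‖β‖) / 2) := lt_min (by linarith) (by linarith)
    linarith
  have hr1 : r < ‖β‖ / 2 := by
    have := min_le_left (‖β‖ / 2) ((1 - ‖β‖) / 2)
    have : 0 < min (‖β‖ / 2) ((1 - ‖β‖) / 2) := lt_min (by linarith) (by linarith)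
    linarith
  have hr2 : r < (1 - ‖β‖) / 2 := by
    have := min_le_right (‖β‖ / 2) ((1 - ‖β‖) / 2)
    have : 0 < min (‖β‖ / 2) ((1 - ‖β‖) / 2) := lt_min (by linarith) (by linarith)
    linarith
  have hsub : Metric.closedBall β r ⊆ annulus β := by
    intro w hw
    rw [Metric.mem_closedBall, dist_eq_norm] at hw
    constructor
    · have := norm_sub_norm_le β w
      rw [norm_sub_rev] at this
      linarith
    · have := norm_sub_norm_le w β
      linarith
  refine ⟨t.factorial * ((‖β‖ / 2) ^ K)⁻¹ / r ^ t, fun n hn => ?_⟩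
  apply Complex.norm_iteratedDeriv_le_of_forall_mem_sphere_norm_le t hrpos
  · apply DifferentiableOn.diffContOnCl
    rw [closure_ball β hrpos.ne']
    exact (differentiableOn_zpow_annulus β n).mono hsub
  · intro z hz
    have := hsub (Metric.sphere_subset_closedBall hz)
    exact norm_zpow_le (by linarith) this.1.le this.2.le K hn

end Pool.Agent.Lib.MP_432bca_pr
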