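import Mathlib
open MeasureTheory ProbabilityTheory Filter Topology

namespace Pool.Agent.Lib.MP_432bca_pr

/-- Maximum principle for a cyclic family of killed walks with negative total drift. -/
theorem maxPrinciple {Ω : Type*} [MeasurableSpace Ω] (P : Measure Ω) [IsProbabilityMeasure P]
    (n : ℕ) (X : Fin (n+1) → Ω → ℤ) (hX : ∀ j, Measurable (X j))
    (m : Fin (n+1) → ℤ) (hm : ∀ j, ∀ᵐ ω ∂P, m j ≤ X j ω)
    (hint : ∀ j, Integrable (fun ω => (X j ω : ℝ)) P)
    (hdrift : ∑ j, ∫ ω, (X j ω : ℝ) ∂P < 0)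
    (y : Fin (n+1) → ℤ → ℝ) (C : ℝ) (hC : ∀ j k, |y j k| ≤ C)
    (hzero : ∀ j k, m j ≤ k → k < 0 → y j k = 0)
    (hrec : ∀ j, ∀ k : ℤ, 0 ≤ k → y (j+1) k = ∫ ω, y j (k + X j ω) ∂P) :
    ∀ j, ∀ k : ℤ, 0 ≤ k → y j k ≤ 0 := by
  classical
  set e : Fin (n+1) → ℝ := fun j => ∫ ω, (X j ω : ℝ) ∂P with he
  set δ : ℝ := -(∑ j, e j) / (n+1) with hδ
  have hδpos : 0 < δ := by
    rw [hδ]; apply div_pos; linarith; positivity
  -- constants
  set B : ℝ := ∑ j, (|e j + δ| + |(m j : ℝ)|) + 1 with hB
  set b : Fin (n+1) → ℝ := fun j => B + ∑ i ∈ Finset.Iio j, (e i + δ) with hb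
  have hbnext : ∀ j : Fin (n+1), b (j+1) = b j + e j + δ := by
    intro j
    by_cases hj : j = Fin.last n
    · subst hj
      rw [Fin.last_add_one]
      simp only [hb]
      have h0 : Finset.Iio (0 : Fin (n+1)) = ∅ := by
        ext i; simp
      rw [h0, Finset.sum_empty, add_zero]
      have h1 : (Finset.univ : Finset (Fin (n+1))) = insert (Fin.last n) (Finset.Iio (Fin.last n)) := by
        ext i
        simp only [Finset.mem_univ, Finset.mem_insert, Finset.mem_Iio, true_iff]
        rcases Fin.le_last i |>.lt_or_eq with h | h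
        · right; exact h
        · left; exact h
      have h2 : ∑ i, (e i + δ) = 0 := by
        rw [Finset.sum_add_distrib]
        simp only [Finset.sum_const, Finset.card_univ, Fintype.card_fin, nsmul_eq_mul]
        rw [hδ]
        push_cast
        field_simp
        ring
      rw [h1, Finset.sum_insert (by simp)] at h2
      linarith
    · have hj1 : Finset.Iio (j+1) = insert j (Finset.Iio j) := by
        ext i
        simp only [Finset.mem_Iio, Finset.mem_insert]
        have hlt : j < Fin.last n := lt_of_le_of_ne (Fin.le_last j) hj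
        rw [Fin.lt_def, Fin.lt_def, Fin.ext_iff, Fin.val_add_one_of_lt hlt]
        omega
      simp only [hb]
      rw [hj1, Finset.sum_insert (by simp)]
      ring
  have hbpos : ∀ j k, m j ≤ k → 0 < (k : ℝ) + b j := by
    intro j k hk
    have h1 : -(∑ i, |e i + δ|) ≤ ∑ i ∈ Finset.Iio j, (e i + δ) := by
      have h2 : |∑ i ∈ Finset.Iio j, (e i + δ)| ≤ ∑ i ∈ Finset.Iio j, |e i + δ| :=
        Finset.abs_sum_le_sum_abs _ _
      have h3 : ∑ i ∈ Finset.Iio j, |e i + δ| ≤ ∑ i, |e i + δ| :=
        Finset.sum_le_univ_sum_of_nonneg (fun i => abs_nonneg _)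
      have h4 := neg_abs_le (∑ i ∈ Finset.Iio j, (e i + δ))
      linarith
    have h5 : |(m j : ℝ)| ≤ ∑ i, |(m i : ℝ)| :=
      Finset.single_le_sum (f := fun i => |(m i : ℝ)|) (fun i _ => abs_nonneg _) (Finset.mem_univ j)
    have h6 : (m j : ℝ) ≤ k := by exact_mod_cast hk
    have h7 := neg_abs_le (m j : ℝ)
    simp only [hb, hB]
    rw [Finset.sum_add_distrib]
    linarith
  -- main claim
  have key : ∀ ε : ℝ, 0 < ε → ∀ j, ∀ k : ℤ, 0 ≤ k → y j k ≤ ε * (k + b j) := by
    intro ε hε
    by_contra hcon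
    push Not at hcon
    obtain ⟨j₁, k₁, hk₁, hjk₁⟩ := hcon
    -- finite set
    set z : Fin (n+1) × ℤ → ℝ := fun p => y p.1 p.2 - ε * (p.2 + b p.1) with hz
    set A : Set (Fin (n+1) × ℤ) := {p | 0 ≤ p.2 ∧ 0 < z p} with hA
    have hbmin : ∀ j, -B ≤ b j := by
      intro j
      have := hbpos j (m j) le_rfl
      have h5 : |(m j : ℝ)| ≤ ∑ i, |(m i : ℝ)| :=
        Finset.single_le_sum (f := fun i => |(m i : ℝ)|) (fun i _ => abs_nonneg _) (Finset.mem_univ j)
      have h7 := le_abs_self (m j : ℝ)
      have h8 : 0 ≤ ∑ i, |e i + δ| := Finset.sum_nonneg (fun i _ => abs_nonneg _)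
      simp only [hB]
      rw [Finset.sum_add_distrib]
      linarith
    have hAfin : A.Finite := by
      apply Set.Finite.subset ((Set.finite_univ (α := Fin (n+1))).prod (Set.finite_Icc (0:ℤ) ⌈C/ε + B⌉))
      rintro ⟨j, k⟩ ⟨h1, h2⟩
      simp only [hz] at h1 h2
      refine ⟨Set.mem_univ _, h1, ?_⟩
      have h3 := (abs_le.mp (hC j k)).2
      have h4 := hbmin j
      have h5 : (k : ℝ) ≤ C / ε + B := by
        have : ε * (k + b j) ≤ C := by linarith
        have h6 : (k : ℝ) + b j ≤ C / ε := by
          rw [le_div_iff₀ hε]; linarith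
        linarith
      exact_mod_cast (h5.trans (Int.le_ceil _))
    have hAne : A.Nonempty := ⟨(j₁, k₁), hk₁, by simp only [hz]; linarith⟩
    obtain ⟨⟨j₀, k₀⟩, hmem, hmax⟩ := Set.exists_max_image A z hAfin hAne
    obtain ⟨hk₀, hz₀⟩ := hmem
    simp only at hk₀
    obtain ⟨j, rfl⟩ : ∃ j, j + 1 = j₀ := ⟨j₀ - 1, by simp⟩
    have hy := hrec j k₀ hk₀
    have hint1 : Integrable (fun ω => y j (k₀ + X j ω)) P := by
      refine Integrable.of_bound (C := C) ?_ ?_
      · apply Measurable.aestronglyMeasurable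
        exact (measurable_from_top (f := fun k : ℤ => y j (k₀ + k))).comp (hX j)
      · exact Eventually.of_forall (fun ω => by rw [Real.norm_eq_abs]; exact hC _ _)
    have hint2 : Integrable (fun ω => ε * (k₀ + X j ω + b j)) P := by
      apply Integrable.const_mul
      apply Integrable.add _ (integrable_const _)
      exact (integrable_const _).add (hint j)
    have hval : z (j+1, k₀) = ∫ ω, (y j (k₀ + X j ω) - ε * (k₀ + X j ω + b j)) ∂P - ε * δ := by
      rw [integral_sub hint1 hint2]
      simp only [hz]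
      have hI : ∫ ω, ((k₀ : ℝ) + X j ω + b j) ∂P = k₀ + e j + b j := by
        have h1 : Integrable (fun ω => (k₀ : ℝ) + X j ω) P := (integrable_const _).add (hint j)
        rw [integral_add h1 (integrable_const _), integral_add (integrable_const _) (hint j)]
        simp [he]
      rw [hy, integral_const_mul, hI, hbnext]
      ring
    have hle : ∫ ω, (y j (k₀ + X j ω) - ε * (k₀ + X j ω + b j)) ∂P ≤ z (j+1, k₀) := by
      have : ∫ ω, (y j (k₀ + X j ω) - ε * (k₀ + X j ω + b j)) ∂P ≤ ∫ ω, z (j+1, k₀) ∂P := by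
        apply integral_mono_ae (hint1.sub hint2) (integrable_const _)
        filter_upwards [hm j] with ω hω
        by_cases hneg : k₀ + X j ω < 0
        · have h1 : y j (k₀ + X j ω) = 0 := hzero j _ (by omega) hneg
          have h2 := hbpos j (k₀ + X j ω) (by omega)
          push_cast at h2
          simp only [Pi.sub_apply, h1]
          have h3 : 0 < ε * (k₀ + X j ω + b j) := mul_pos hε h2
          linarith
        · push Not at hneg
          have h1 : y j (k₀ + X j ω) - ε * (k₀ + X j ω + b j) = z (j, k₀ + X j ω) := by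
            simp only [hz]; push_cast; ring
          simp only [Pi.sub_apply]
          rw [h1]
          by_cases hpos : 0 < z (j, k₀ + X j ω)
          · exact hmax _ ⟨hneg, hpos⟩
          · linarith
      simpa using this
    have : 0 < ε * δ := mul_pos hε hδpos
    linarith
  intro j k hk
  by_contra hcon
  push Not at hcon
  have h1 : 0 < (k : ℝ) + b j := by
    by_contra hc
    push Not at hc
    have := key 1 one_pos j k hk
    linarith
  have h2 := key (y j k / (2 * (k + b j))) (by positivity) j k hk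
  have h3 : y j k / (2 * (k + b j)) * (k + b j) = y j k / 2 := by
    field_simp
  linarith

theorem measurable_comp_int {Ω : Type*} [MeasurableSpace Ω] {E : Type*} [MeasurableSpace E]
    (f : ℤ → E) {X : Ω → ℤ} (hX : Measurable X) : Measurable (fun ω => f (X ω)) :=
  (measurable_from_top (f := f)).comp hX

/-- The stopped-walk recursion. -/
def Rec {Ω : Type*} [MeasurableSpace Ω] (P : Measure Ω) (S : Ω → ℤ) (d : ℕ)
    {E : Type*} [NormedAddCommGroup E] [NormedSpace ℝ E] (x : ℕ → E) : Prop :=
  ∀ n : ℕ, x (n + d) = ∫ ω, x (((n : ℤ) + d + S ω).toNat) ∂P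

theorem integrable_toNat {Ω : Type*} [MeasurableSpace Ω] (P : Measure Ω) [IsProbabilityMeasure P]
    {S : Ω → ℤ} (hS : Measurable S) {E : Type*} [NormedAddCommGroup E] [MeasurableSpace E]
    [BorelSpace E] [SecondCountableTopology E] (x : ℕ → E) {C : ℝ} (hC : ∀ k, ‖x k‖ ≤ C) (c : ℤ) :
    Integrable (fun ω => x ((c + S ω).toNat)) P := by
  refine Integrable.of_bound (C := C) ?_ ?_
  · apply Measurable.aestronglyMeasurable
    exact measurable_comp_int (fun k : ℤ => x (c + k).toNat) hS
  · exact Eventually.of_forall (fun ω => hC _)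

theorem dirichlet_exists {Ω : Type*} [MeasurableSpace Ω] (P : Measure Ω) [IsProbabilityMeasure P]
    (S : Ω → ℤ) (hS : Measurable S) (d : ℕ) (b : ℕ → ℝ) (hb : ∀ k, 0 ≤ b k ∧ b k ≤ 1) :
    ∃ x : ℕ → ℝ, (∀ k, 0 ≤ x k ∧ x k ≤ 1) ∧ (∀ k < d, x k = b k) ∧ Rec P S d x := by
  classical
  let T : (ℕ → ℝ) → (ℕ → ℝ) := fun x k => if k < d then b k else ∫ ω, x (((k : ℤ) + S ω).toNat) ∂P
  let u : ℕ → (ℕ → ℝ) := fun r => T^[r] (fun k => if k < d then b k else 0)
  have hus : ∀ r, u (r+1) = T (u r) := fun r => by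
    simp only [u]; rw [Function.iterate_succ_apply']
  have hbd : ∀ r k, 0 ≤ u r k ∧ u r k ≤ 1 := by
    intro r
    induction r with
    | zero =>
      intro k
      simp only [u, Function.iterate_zero, id]
      split_ifs
      · exact hb k
      · exact ⟨le_rfl, zero_le_one⟩
    | succ r ih =>
      intro k
      rw [hus]
      simp only [T]
      split_ifs
      · exact hb k
      · constructor
        · exact integral_nonneg (fun ω => (ih _).1)
        · have : ∫ ω, u r (((k : ℤ) + S ω).toNat) ∂P ≤ ∫ _ω, (1:ℝ) ∂P := by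
            apply integral_mono (integrable_toNat P hS (u r) (C := 1) (fun k => ?_) k) (integrable_const _)
            · intro ω; exact (ih _).2
            · rw [Real.norm_eq_abs, abs_of_nonneg (ih k).1]; exact (ih k).2
          simpa using this
  have hmono : ∀ r k, u r k ≤ u (r+1) k := by
    intro r
    induction r with
    | zero =>
      intro k
      rw [hus]
      simp only [T, u, Function.iterate_zero, id]
      split_ifs with h
      · exact le_rfl
      · exact integral_nonneg (fun ω => by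
          simp only [Pi.zero_apply]
          split_ifs
          · exact (hb _).1
          · exact le_rfl)
    | succ r ih =>
      intro k
      have e1 : u (r+1) k = if k < d then b k else ∫ ω, u r (((k : ℤ) + S ω).toNat) ∂P := by rw [hus r]
      have e2 : u (r+1+1) k = if k < d then b k else ∫ ω, u (r+1) (((k : ℤ) + S ω).toNat) ∂P := by
        rw [hus (r+1)]
      rw [e1, e2]
      split_ifs with h
      · exact le_rfl
      · apply integral_mono (integrable_toNat P hS (u r) (C := 1) (fun k => ?_) k)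
          (integrable_toNat P hS (u (r+1)) (C := 1) (fun k => ?_) k)
        · intro ω
          exact ih (((k : ℤ) + S ω).toNat)
        · rw [Real.norm_eq_abs, abs_of_nonneg (hbd r k).1]; exact (hbd r k).2
        · have := hbd (r+1) k
          rw [Real.norm_eq_abs, abs_of_nonneg this.1]; exact this.2
  have hmono' : ∀ k, Monotone (fun r => u r k) := fun k => monotone_nat_of_le_succ (fun r => hmono r k)
  have hbdd : ∀ k, BddAbove (Set.range (fun r => u r k)) := fun k => ⟨1, by
    rintro _ ⟨r, rfl⟩; exact (hbd r k).2⟩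
  have hlim : ∀ k, Tendsto (fun r => u r k) atTop (𝓝 (⨆ r, u r k)) := fun k =>
    tendsto_atTop_ciSup (hmono' k) (hbdd k)
  refine ⟨fun k => ⨆ r, u r k, ?_, ?_, ?_⟩
  · intro k
    exact ⟨ge_of_tendsto' (hlim k) (fun r => (hbd r k).1), le_of_tendsto' (hlim k) (fun r => (hbd r k).2)⟩
  · intro k hk
    have h1 : Tendsto (fun r => u (r+1) k) atTop (𝓝 (⨆ r, u r k)) := (tendsto_add_atTop_iff_nat 1).2 (hlim k)
    have h2 : (fun r => u (r+1) k) = fun _ => b k := by
      funext r
      rw [hus]
      simp only [T, if_pos hk]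
    rw [h2] at h1
    exact tendsto_nhds_unique h1 tendsto_const_nhds
  · intro n
    have h1 : Tendsto (fun r => u (r+1) (n+d)) atTop (𝓝 (⨆ r, u r (n+d))) :=
      (tendsto_add_atTop_iff_nat 1).2 (hlim (n+d))
    have h2 : (fun r => u (r+1) (n+d)) = fun r => ∫ ω, u r (((n : ℤ) + d + S ω).toNat) ∂P := by
      funext r
      rw [hus]
      simp only [T]
      rw [if_neg (by omega)]
      push_cast
      rfl
    rw [h2] at h1
    refine tendsto_nhds_unique h1 ?_
    apply tendsto_integral_of_dominated_convergence (fun _ => (1:ℝ))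
    · intro r
      apply Measurable.aestronglyMeasurable
      exact measurable_comp_int (fun k : ℤ => u r ((n:ℤ) + d + k).toNat) hS
    · exact integrable_const _
    · intro r
      refine Eventually.of_forall (fun ω => ?_)
      rw [Real.norm_eq_abs, abs_of_nonneg (hbd r _).1]; exact (hbd r _).2
    · exact Eventually.of_forall (fun ω => hlim _)

/-- Real uniqueness. -/
theorem rec_nonpos {Ω : Type*} [MeasurableSpace Ω] (P : Measure Ω) [IsProbabilityMeasure P]
    (S : Ω → ℤ) (hS : Measurable S) (d : ℕ) (hd : ∀ᵐ ω ∂P, -(d:ℤ) ≤ S ω)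
    (hint : Integrable (fun ω => (S ω : ℝ)) P) (hneg : ∫ ω, (S ω : ℝ) ∂P < 0)
    (x : ℕ → ℝ) (C : ℝ) (hC : ∀ k, |x k| ≤ C) (hx : Rec P S d x) (h0 : ∀ k < d, x k = 0) :
    ∀ k, x k ≤ 0 := by
  have hmp := maxPrinciple P 0 (fun _ => S) (fun _ => hS) (fun _ => -(d:ℤ)) (fun _ => hd)
    (fun _ => hint) (by simpa using hneg)
    (fun _ k => if -(d:ℤ) ≤ k then x ((k + d).toNat) else 0) C ?_ ?_ ?_
  · intro k
    by_cases hk : k < d
    · rw [h0 k hk]
    · have := hmp 0 ((k:ℤ) - d) (by omega)
      rw [if_pos (by omega)] at this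
      have h1 : ((k:ℤ) - d + d).toNat = k := by omega
      rwa [h1] at this
  · intro j k
    split_ifs
    · exact hC _
    · rw [abs_zero]; exact (abs_nonneg _).trans (hC 0)
  · intro j k h1 h2
    rw [if_pos h1]
    apply h0
    omega
  · intro j k hk
    rw [if_pos (by omega)]
    obtain ⟨n, rfl⟩ := Int.eq_ofNat_of_zero_le hk
    have h1 : (((n:ℤ) + d)).toNat = n + d := by omega
    rw [h1, hx n]
    apply integral_congr_ae
    filter_upwards [hd] with ω hω
    rw [if_pos (by omega)]
    congr 2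
    ring

theorem rec_eq_zero {Ω : Type*} [MeasurableSpace Ω] (P : Measure Ω) [IsProbabilityMeasure P]
    (S : Ω → ℤ) (hS : Measurable S) (d : ℕ) (hd : ∀ᵐ ω ∂P, -(d:ℤ) ≤ S ω)
    (hint : Integrable (fun ω => (S ω : ℝ)) P) (hneg : ∫ ω, (S ω : ℝ) ∂P < 0)
    (x : ℕ → ℂ) (C : ℝ) (hC : ∀ k, ‖x k‖ ≤ C) (hx : Rec P S d x) (h0 : ∀ k < d, x k = 0) :
    ∀ k, x k = 0 := by
  have hre : Rec P S d (fun k => (x k).re) := by
    intro n
    have := integral_re (𝕜 := ℂ) (integrable_toNat P hS x hC ((n:ℤ) + d))
    simp only [RCLike.re_to_complex] at this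
    rw [this, ← hx n]
  have him : Rec P S d (fun k => (x k).im) := by
    intro n
    have := integral_im (𝕜 := ℂ) (integrable_toNat P hS x hC ((n:ℤ) + d))
    simp only [RCLike.im_to_complex] at this
    rw [this, ← hx n]
  have hneg' : ∀ z : ℕ → ℝ, Rec P S d z → Rec P S d (fun k => - z k) := by
    intro z hz n
    beta_reduce
    rw [hz n, integral_neg]
  have hreC : ∀ k, |(x k).re| ≤ C := fun k => (Complex.abs_re_le_norm _).trans (hC k)
  have himC : ∀ k, |(x k).im| ≤ C := fun k => (Complex.abs_im_le_norm _).trans (hC k)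
  have r1 := rec_nonpos P S hS d hd hint hneg _ C hreC hre (fun k hk => by simp [h0 k hk])
  have r2 := rec_nonpos P S hS d hd hint hneg _ C (fun k => by simpa using hreC k) (hneg' _ hre)
    (fun k hk => by simp [h0 k hk])
  have r3 := rec_nonpos P S hS d hd hint hneg _ C himC him (fun k hk => by simp [h0 k hk])
  have r4 := rec_nonpos P S hS d hd hint hneg _ C (fun k => by simpa using himC k) (hneg' _ him)
    (fun k hk => by simp [h0 k hk])
  intro k
  apply Complex.ext
  · have := r1 k; have := r2 k; simp only [Complex.zero_re]; linarith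
  · have := r3 k; have := r4 k; simp only [Complex.zero_im]; linarith

theorem Rec.shift {Ω : Type*} [MeasurableSpace Ω] {P : Measure Ω}
    {S : Ω → ℤ} {d : ℕ} (hd : ∀ᵐ ω ∂P, -(d:ℤ) ≤ S ω)
    {x : ℕ → ℂ} (hx : Rec P S d x) (l : ℕ) : Rec P S d (fun k => x (l + k)) := by
  intro n
  dsimp only
  rw [← add_assoc, hx (l + n)]
  apply integral_congr_ae
  filter_upwards [hd] with ω hω
  congr 1
  push_cast
  omega

theorem Rec.finset_sum {Ω : Type*} [MeasurableSpace Ω] {P : Measure Ω} [IsProbabilityMeasure P]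
    {S : Ω → ℤ} (hS : Measurable S) {d : ℕ} {ι : Type*} (s : Finset ι)
    (c : ι → ℂ) (x : ι → ℕ → ℂ) (C : ℝ) (hC : ∀ i k, ‖x i k‖ ≤ C)
    (hx : ∀ i, Rec P S d (x i)) : Rec P S d (fun k => ∑ i ∈ s, c i * x i k) := by
  intro n
  dsimp only
  rw [integral_finsetSum]
  · apply Finset.sum_congr rfl
    intro i _
    rw [integral_const_mul, ← hx i n]
  · intro i _
    exact (integrable_toNat P hS (x i) (hC i) _).const_mul _

theorem Rec.ofReal {Ω : Type*} [MeasurableSpace Ω] {P : Measure Ω}
    {S : Ω → ℤ} {d : ℕ} {x : ℕ → ℝ} (hx : Rec P S d x) : Rec P S d (fun k => (x k : ℂ)) := by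
  intro n
  dsimp only
  rw [hx n]
  exact (integral_ofReal (𝕜 := ℂ)).symm

/-- The characteristic polynomial of the space of bounded solutions. -/
theorem exists_poly {Ω : Type*} [MeasurableSpace Ω] (P : Measure Ω) [IsProbabilityMeasure P]
    (S : Ω → ℤ) (hS : Measurable S) (d : ℕ) (hd : ∀ᵐ ω ∂P, -(d:ℤ) ≤ S ω)
    (hint : Integrable (fun ω => (S ω : ℝ)) P) (hneg : ∫ ω, (S ω : ℝ) ∂P < 0) :
    ∃ Q : Polynomial ℂ, Q.Monic ∧ Q.natDegree = d ∧ ∀ x : ℕ → ℂ,
      ((∃ C : ℝ, ∀ k, ‖x k‖ ≤ C) ∧ Rec P S d x) ↔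
        ∀ n : ℕ, ∑ j ∈ Finset.range (d + 1), Q.coeff j * x (n + j) = 0 := by
  classical
  have hex := fun r : ℕ => dirichlet_exists P S hS d (fun k => if k = r then (1:ℝ) else 0)
    (fun k => by split_ifs <;> norm_num)
  choose e he1 he2 he3 using hex
  have heC : ∀ r k, ‖((e r k : ℝ) : ℂ)‖ ≤ 1 := by
    intro r k
    rw [Complex.norm_real, Real.norm_eq_abs, abs_of_nonneg (he1 r k).1]
    exact (he1 r k).2
  -- every bounded solution is a combination of the basis solutions
  have hrep : ∀ x : ℕ → ℂ, (∃ C : ℝ, ∀ k, ‖x k‖ ≤ C) → Rec P S d x →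
      ∀ k, x k = ∑ r ∈ Finset.range d, x r * (e r k : ℂ) := by
    rintro x ⟨C, hC⟩ hx k
    have hz := rec_eq_zero P S hS d hd hint hneg
      (fun k => x k - ∑ r ∈ Finset.range d, x r * (e r k : ℂ)) (C + ∑ r ∈ Finset.range d, ‖x r‖)
      ?_ ?_ ?_ k
    · exact sub_eq_zero.mp hz
    · intro k
      calc ‖x k - ∑ r ∈ Finset.range d, x r * (e r k : ℂ)‖ ≤ ‖x k‖ + ‖∑ r ∈ Finset.range d, x r * (e r k : ℂ)‖ :=
            norm_sub_le _ _
        _ ≤ C + ∑ r ∈ Finset.range d, ‖x r‖ := by
            apply add_le_add (hC k)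
            apply (norm_sum_le _ _).trans
            apply Finset.sum_le_sum
            intro r _
            rw [norm_mul]
            exact mul_le_of_le_one_right (norm_nonneg _) (heC r k)
    · intro n
      have h1 := Rec.finset_sum hS (Finset.range d) x (fun r k => (e r k : ℂ)) 1 heC
        (fun r => (he3 r).ofReal) n
      dsimp only at h1 ⊢
      rw [integral_sub, ← h1, ← hx n]
      · exact integrable_toNat P hS x hC _
      · apply integrable_finsetSum
        intro r _
        exact (integrable_toNat P hS (fun k => (e r k : ℂ)) (heC r) _).const_mul _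
    · intro k hk
      have : ∀ r ∈ Finset.range d, x r * (e r k : ℂ) = if k = r then x r else 0 := by
        intro r _
        rw [he2 r k hk]
        split_ifs <;> simp
      rw [Finset.sum_congr rfl this, Finset.sum_ite_eq, if_pos (Finset.mem_range.mpr hk), sub_self]
  set Q : Polynomial ℂ := Polynomial.X ^ d - ∑ r ∈ Finset.range d, Polynomial.C (e r d : ℂ) * Polynomial.X ^ r with hQ
  have hdeg : (∑ r ∈ Finset.range d, Polynomial.C (e r d : ℂ) * Polynomial.X ^ r : Polynomial ℂ).degree < (d : ℕ) := by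
    rw [Finset.sum_range]
    exact Polynomial.degree_sum_fin_lt (fun r : Fin d => (e r d : ℂ))
  have hmonic : Q.Monic := Polynomial.monic_X_pow_sub hdeg
  have hnat : Q.natDegree = d := by
    rw [hQ, sub_eq_add_neg, Polynomial.natDegree_add_eq_left_of_degree_lt, Polynomial.natDegree_X_pow]
    rw [Polynomial.degree_neg, Polynomial.degree_X_pow]
    exact hdeg
  have hcoeff : ∀ x : ℕ → ℂ, ∀ n, ∑ j ∈ Finset.range (d + 1), Q.coeff j * x (n + j)
      = x (n + d) - ∑ r ∈ Finset.range d, x (n + r) * (e r d : ℂ) := by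
    intro x n
    rw [Finset.sum_range_succ]
    have h1 : Q.coeff d = 1 := by
      have := hmonic.coeff_natDegree
      rwa [hnat] at this
    have h2 : ∀ j ∈ Finset.range d, Q.coeff j * x (n + j) = -(x (n + j) * (e j d : ℂ)) := by
      intro j hj
      have hj' := Finset.mem_range.mp hj
      have : Q.coeff j = -(e j d : ℂ) := by
        rw [hQ]
        simp only [Polynomial.coeff_sub, Polynomial.coeff_X_pow, Polynomial.finsetSum_coeff,
          Polynomial.coeff_C_mul]
        rw [if_neg (by omega)]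
        simp [hj']
      rw [this]; ring
    rw [Finset.sum_congr rfl h2, h1, Finset.sum_neg_distrib]
    ring
  refine ⟨Q, hmonic, hnat, fun x => ⟨?_, ?_⟩⟩
  · rintro ⟨⟨C, hC⟩, hx⟩ n
    rw [hcoeff]
    have := hrep (fun k => x (n + k)) ⟨C, fun k => hC _⟩ (hx.shift hd n) d
    rw [this, sub_self]
  · intro hx
    have hxeq : ∀ n, x (n + d) = ∑ r ∈ Finset.range d, x (n + r) * (e r d : ℂ) := by
      intro n
      have := hx n
      rw [hcoeff] at this
      exact sub_eq_zero.mp this
    have heq : ∀ r n, (e r (n + d) : ℂ) = ∑ r' ∈ Finset.range d, (e r (n + r') : ℂ) * (e r' d : ℂ) := by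
      intro r n
      exact hrep (fun k => (e r (n + k) : ℂ)) ⟨1, fun k => heC _ _⟩ ((he3 r).ofReal.shift hd n) d
    have hall : ∀ k, x k = ∑ r ∈ Finset.range d, x r * (e r k : ℂ) := by
      intro k
      induction k using Nat.strong_induction_on with
      | _ k ih =>
        by_cases hk : k < d
        · have : ∀ r ∈ Finset.range d, x r * (e r k : ℂ) = if k = r then x r else 0 := by
            intro r _
            rw [he2 r k hk]
            split_ifs <;> simp
          rw [Finset.sum_congr rfl this, Finset.sum_ite_eq, if_pos (Finset.mem_range.mpr hk)]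
        · obtain ⟨n, rfl⟩ : ∃ n, k = n + d := ⟨k - d, by omega⟩
          rw [hxeq n]
          have h1 : ∀ r ∈ Finset.range d, x (n + r) * (e r d : ℂ)
              = ∑ r' ∈ Finset.range d, x r' * ((e r' (n + r) : ℂ) * (e r d : ℂ)) := by
            intro r hr
            rw [ih (n + r) (by have := Finset.mem_range.mp hr; omega), Finset.sum_mul]
            apply Finset.sum_congr rfl
            intro r' _
            ring
          rw [Finset.sum_congr rfl h1, Finset.sum_comm]
          apply Finset.sum_congr rfl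
          intro r' _
          rw [← Finset.mul_sum, heq r' n]
    constructor
    · refine ⟨∑ r ∈ Finset.range d, ‖x r‖, fun k => ?_⟩
      rw [hall k]
      apply (norm_sum_le _ _).trans
      apply Finset.sum_le_sum
      intro r _
      rw [norm_mul]
      exact mul_le_of_le_one_right (norm_nonneg _) (heC r k)
    · have h1 := Rec.finset_sum hS (Finset.range d) x (fun r k => (e r k : ℂ)) 1 heC
        (fun r => (he3 r).ofReal)
      have h2 : x = fun k => ∑ r ∈ Finset.range d, x r * (e r k : ℂ) := funext hall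
      rw [h2]
      exact h1
end Pool.Agent.Lib.MP_432bca_pr
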