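import Pool.Agent.Lib.MP_432bca_pr.Defs
import Pool.Agent.Lib.MP_432bca_pr.Walk
import Pool.Agent.Lib.MP_432bca_pr.Deriv
open MeasureTheory ProbabilityTheory Filter Topology

namespace Pool.Agent.Lib.MP_432bca_pr

set_option linter.unusedSectionVars false

variable {Ω : Type*} [MeasurableSpace Ω] (P : Measure Ω) [IsProbabilityMeasure P]

theorem map_real_singleton {Y : Ω → ℤ} (hY : Measurable Y) (k : ℤ) :
    (P.map Y).real {k} = P.real {ω | Y ω = k} := by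
  rw [map_measureReal_apply hY (measurableSet_singleton k)]
  rfl

theorem integrable_comp {Y : Ω → ℤ} (hY : Measurable Y) (K : ℕ) (hK : ∀ᵐ ω ∂P, -(K:ℤ) ≤ Y ω)
    (h : ℤ → ℂ) (C : ℝ) (hC : ∀ k, -(K:ℤ) ≤ k → ‖h k‖ ≤ C) :
    Integrable (fun ω => h (Y ω)) P := by
  refine Integrable.of_bound (C := C) ?_ ?_
  · exact (measurable_comp_int h hY).aestronglyMeasurable
  · filter_upwards [hK] with ω hω
    exact hC _ hω

theorem integral_comp_eq_tsum {Y : Ω → ℤ} (hY : Measurable Y) (K : ℕ) (hK : ∀ᵐ ω ∂P, -(K:ℤ) ≤ Y ω)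
    (h : ℤ → ℂ) (C : ℝ) (hC : ∀ k, -(K:ℤ) ≤ k → ‖h k‖ ≤ C) :
    ∫ ω, h (Y ω) ∂P = ∑' k : ℤ, ((P.real {ω | Y ω = k} : ℝ) : ℂ) * h k := by
  have h1 : ∫ ω, h (Y ω) ∂P = ∫ k, h k ∂(P.map Y) := by
    rw [integral_map hY.aemeasurable]
    exact (measurable_from_top (f := h)).aestronglyMeasurable
  have h2 : Integrable h (P.map Y) := by
    rw [integrable_map_measure _ hY.aemeasurable]
    · exact integrable_comp P hY K hK h C hC
    · exact (measurable_from_top (f := h)).aestronglyMeasurable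
  rw [h1, integral_countable h2]
  apply tsum_congr
  intro k
  rw [map_real_singleton P hY, Complex.real_smul]

theorem summable_weights {Y : Ω → ℤ} (hY : Measurable Y) :
    Summable (fun k : ℤ => P.real {ω | Y ω = k}) := by
  have h1 : Integrable (fun _ : ℤ => (1:ℝ)) (P.map Y) := by
    have := Measure.isProbabilityMeasure_map (μ := P) hY.aemeasurable
    exact integrable_const _
  have h2 := integral_countable h1
  by_contra hns
  have h3 : ∑' k : ℤ, (P.map Y).real {k} • (1:ℝ) = 0 := by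
    apply tsum_eq_zero_of_not_summable
    intro h
    apply hns
    refine h.congr (fun k => ?_)
    rw [map_real_singleton P hY]; simp
  rw [h3] at h2
  have := Measure.isProbabilityMeasure_map (μ := P) hY.aemeasurable
  simp at h2

theorem weight_eq_zero {Y : Ω → ℤ} (K : ℕ) (hK : ∀ᵐ ω ∂P, -(K:ℤ) ≤ Y ω) {k : ℤ} (hk : k < -(K:ℤ)) :
    P.real {ω | Y ω = k} = 0 := by
  rw [measureReal_def, ENNReal.toReal_eq_zero_iff]
  left
  rw [← nonpos_iff_eq_zero]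
  calc P {ω | Y ω = k} ≤ P {ω | ¬ (-(K:ℤ) ≤ Y ω)} := by
        apply measure_mono
        intro ω hω
        simp only [Set.mem_ofPred_eq] at hω ⊢
        omega
    _ = 0 := hK
    _ ≤ 0 := le_rfl

theorem genFun_eq_integral {Y : Ω → ℤ} (hY : Measurable Y) (K : ℕ) (hK : ∀ᵐ ω ∂P, -(K:ℤ) ≤ Y ω)
    {β : ℂ} (h0 : 0 < ‖β‖) (h1 : ‖β‖ ≤ 1) : genFun P Y β = ∫ ω, β ^ (Y ω) ∂P := by
  rw [integral_comp_eq_tsum P hY K hK (fun k => β ^ k) ((‖β‖ ^ K)⁻¹)
    (fun k hk => norm_zpow_le h0 le_rfl h1 K hk)]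
  unfold genFun
  apply tsum_congr
  intro k
  ring

/-- term bound -/
theorem term_bound {Y : Ω → ℤ} (K : ℕ) (hK : ∀ᵐ ω ∂P, -(K:ℤ) ≤ Y ω) {β : ℂ}
    (h0 : 0 < ‖β‖) (n : ℤ) (k : ℤ) {w : ℂ} (hw : w ∈ annulus β) :
    ‖((P.real {ω | Y ω = k} : ℝ) : ℂ) * w ^ (n + k)‖ ≤
      P.real {ω | Y ω = k} * (((‖β‖ / 2) ^ (K + n.natAbs)))⁻¹ := by
  rw [norm_mul, Complex.norm_real, Real.norm_eq_abs, abs_of_nonneg measureReal_nonneg]
  by_cases hk : k < -(K:ℤ)
  · rw [weight_eq_zero P K hK hk]; simp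
  · apply mul_le_mul_of_nonneg_left _ measureReal_nonneg
    apply norm_zpow_le (by linarith) hw.1.le hw.2.le
    omega

theorem zpow_mul_genFun {Y : Ω → ℤ} {w : ℂ} (hw : w ≠ 0) (n : ℤ) :
    w ^ n * genFun P Y w = ∑' k : ℤ, ((P.real {ω | Y ω = k} : ℝ) : ℂ) * w ^ (n + k) := by
  unfold genFun
  rw [← tsum_mul_left]
  apply tsum_congr
  intro k
  rw [zpow_add₀ hw]
  ring

theorem ne_zero_of_mem_annulus {β w : ℂ} (hw : w ∈ annulus β) : w ≠ 0 := by
  intro h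
  have := hw.1
  rw [h, norm_zero] at this
  have := norm_nonneg β
  linarith

theorem differentiableOn_genFun {Y : Ω → ℤ} (hY : Measurable Y) (K : ℕ)
    (hK : ∀ᵐ ω ∂P, -(K:ℤ) ≤ Y ω) {β : ℂ} (h0 : 0 < ‖β‖) :
    DifferentiableOn ℂ (genFun P Y) (annulus β) := by
  have h := Complex.differentiableOn_tsum_of_summable_norm (U := annulus β)
    (F := fun (k : ℤ) (w : ℂ) => ((P.real {ω | Y ω = k} : ℝ) : ℂ) * w ^ (0 + k))
    (u := fun k => P.real {ω | Y ω = k} * (((‖β‖ / 2) ^ (K + (0:ℤ).natAbs)))⁻¹)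
    ((summable_weights P hY).mul_right _)
    (fun k => (differentiableOn_zpow_annulus β _).const_mul _)
    (isOpen_annulus β) (fun k w hw => term_bound P K hK h0 0 k hw)
  refine h.congr (fun w hw => ?_)
  have := zpow_mul_genFun P (Y := Y) (ne_zero_of_mem_annulus hw) 0
  rw [zpow_zero, one_mul] at this
  exact this

theorem integral_E {Y : Ω → ℤ} (hY : Measurable Y) (K : ℕ) (hK : ∀ᵐ ω ∂P, -(K:ℤ) ≤ Y ω)
    {β : ℂ} (h0 : 0 < ‖β‖) (h1 : ‖β‖ < 1) (t : ℕ) (n : ℤ) :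
    ∫ ω, E β t (n + Y ω) ∂P = iteratedDeriv t (fun s => s ^ n * genFun P Y s) β := by
  obtain ⟨C, hC⟩ := E_bounded h0 h1 t (K + n.natAbs)
  rw [integral_comp_eq_tsum P hY K hK (fun k => E β t (n + k)) C
    (fun k hk => hC _ (by omega))]
  have h2 := hasSum_iteratedDeriv (U := annulus β)
    (F := fun (k : ℤ) (w : ℂ) => ((P.real {ω | Y ω = k} : ℝ) : ℂ) * w ^ (n + k))
    (u := fun k => P.real {ω | Y ω = k} * (((‖β‖ / 2) ^ (K + n.natAbs)))⁻¹)
    ((summable_weights P hY).mul_right _)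
    (fun k => (differentiableOn_zpow_annulus β _).const_mul _)
    (isOpen_annulus β) (fun k w hw => term_bound P K hK h0 n k hw) t (mem_annulus h0 h1)
  have h3 : (fun s => s ^ n * genFun P Y s) =ᶠ[𝓝 β]
      (fun w => ∑' k : ℤ, ((P.real {ω | Y ω = k} : ℝ) : ℂ) * w ^ (n + k)) := by
    filter_upwards [(isOpen_annulus β).mem_nhds (mem_annulus h0 h1)] with w hw
    exact zpow_mul_genFun P (ne_zero_of_mem_annulus hw) n
  rw [h3.iteratedDeriv_eq, ← h2.tsum_eq]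
  apply tsum_congr
  intro k
  rw [iteratedDeriv_const_mul_field]
  rfl

theorem analyticAt_genFun {Y : Ω → ℤ} (hY : Measurable Y) (K : ℕ)
    (hK : ∀ᵐ ω ∂P, -(K:ℤ) ≤ Y ω) {β : ℂ} (h0 : 0 < ‖β‖) (h1 : ‖β‖ < 1) :
    AnalyticAt ℂ (genFun P Y) β :=
  (differentiableOn_genFun P hY K hK h0).analyticAt ((isOpen_annulus β).mem_nhds (mem_annulus h0 h1))

theorem analyticAt_zpow {β : ℂ} (hβ : β ≠ 0) (n : ℤ) : AnalyticAt ℂ (fun s : ℂ => s ^ n) β := by
  exact analyticAt_id.zpow hβ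

theorem order_zpow {β : ℂ} (hβ : β ≠ 0) (n : ℤ) : analyticOrderAt (fun s : ℂ => s ^ n) β = 0 := by
  rw [(analyticAt_zpow hβ n).analyticOrderAt_eq_zero]
  exact zpow_ne_zero n hβ

/-- vanishing of the derivatives of `s^n (G(s)-1)` -/
theorem iteratedDeriv_zero_iff {f : ℂ → ℂ} {β : ℂ} (hβ : β ≠ 0) (hf : AnalyticAt ℂ f β) (k : ℕ) (n : ℤ) :
    (∀ t < k, iteratedDeriv t (fun s => s ^ n * f s) β = 0) ↔ (k : ℕ∞) ≤ analyticOrderAt f β := by
  have h1 : AnalyticAt ℂ (fun s => s ^ n * f s) β := (analyticAt_zpow hβ n).mul hf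
  rw [← natCast_le_analyticOrderAt_iff_iteratedDeriv_eq_zero h1]
  have h2 : analyticOrderAt (fun s => s ^ n * f s) β = analyticOrderAt f β := by
    have := analyticOrderAt_mul (analyticAt_zpow hβ n) hf
    rw [order_zpow hβ n, zero_add] at this
    exact this
  rw [h2]

theorem integral_E_sub {Y : Ω → ℤ} (hY : Measurable Y) (K : ℕ) (hK : ∀ᵐ ω ∂P, -(K:ℤ) ≤ Y ω)
    {β : ℂ} (h0 : 0 < ‖β‖) (h1 : ‖β‖ < 1) (t : ℕ) (n : ℤ) :
    ∫ ω, E β t (n + Y ω) ∂P - E β t n = iteratedDeriv t (fun s => s ^ n * (genFun P Y s - 1)) β := by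
  have hβ : β ≠ 0 := norm_pos_iff.mp h0
  rw [integral_E P hY K hK h0 h1]
  unfold E
  rw [← iteratedDeriv_fun_sub]
  · congr 1
    funext s
    ring
  · exact ((analyticAt_zpow hβ n).mul (analyticAt_genFun P hY K hK h0 h1)).contDiffAt
  · exact (analyticAt_zpow hβ n).contDiffAt

/-- order of vanishing controls the recursion for all integer indices. -/
theorem E_rec_of_order {Y : Ω → ℤ} (hY : Measurable Y) (K : ℕ) (hK : ∀ᵐ ω ∂P, -(K:ℤ) ≤ Y ω)
    {β : ℂ} (h0 : 0 < ‖β‖) (h1 : ‖β‖ < 1) (k : ℕ)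
    (hk : (k : ℕ∞) ≤ analyticOrderAt (fun s => genFun P Y s - 1) β) (t : ℕ) (ht : t < k) (n : ℤ) :
    ∫ ω, E β t (n + Y ω) ∂P = E β t n := by
  have hβ : β ≠ 0 := norm_pos_iff.mp h0
  have hf : AnalyticAt ℂ (fun s => genFun P Y s - 1) β :=
    (analyticAt_genFun P hY K hK h0 h1).sub analyticAt_const
  have := (iteratedDeriv_zero_iff hβ hf k n).mpr hk t ht
  rw [← integral_E_sub P hY K hK h0 h1] at this
  exact sub_eq_zero.mp this

end Pool.Agent.Lib.MP_432bca_pr
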