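import Pool.Agent.Lib.MP_432bca_pr.Boundary
open MeasureTheory ProbabilityTheory Filter Topology

namespace Pool.Agent.Lib.MP_432bca_pr

set_option linter.unusedSectionVars false

/-- Evaluation of the derivative functional on a polynomial. -/
theorem sum_coeff_E_zero (R : Polynomial ℂ) {β : ℂ} (hβ : β ≠ 0) (t : ℕ) :
    ∑ j ∈ Finset.range (R.natDegree + 1), R.coeff j * E β t (j : ℤ) =
      iteratedDeriv t (fun s => s ^ (0 : ℤ) * R.eval s) β := by
  have := sum_coeff_E (Q := R) rfl hβ t 0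
  simpa using this

theorem indep_E {ι : Type*} [Fintype ι] (Q : Polynomial ℂ) (hQ : Q ≠ 0) (a : ι → ℂ) (τ : ι → ℕ)
    (hinj : ∀ r r', a r = a r' → τ r = τ r' → r = r') (ha : ∀ r, a r ≠ 0)
    (hτ : ∀ r, τ r < Q.rootMultiplicity (a r)) (u : ι → ℂ)
    (hu : ∀ n : ℕ, ∑ r, u r * E (a r) (τ r) (n : ℤ) = 0) : ∀ r, u r = 0 := by
  classical
  -- polynomials
  have hpoly : ∀ R : Polynomial ℂ, ∑ r, u r * iteratedDeriv (τ r) (fun s => s ^ (0 : ℤ) * R.eval s) (a r) = 0 := by
    intro R
    have h1 : ∀ r, u r * iteratedDeriv (τ r) (fun s => s ^ (0 : ℤ) * R.eval s) (a r) =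
        ∑ j ∈ Finset.range (R.natDegree + 1), R.coeff j * (u r * E (a r) (τ r) (j : ℤ)) := by
      intro r
      rw [← sum_coeff_E_zero R (ha r), Finset.mul_sum]
      apply Finset.sum_congr rfl
      intro j _
      ring
    rw [Finset.sum_congr rfl (fun r _ => h1 r), Finset.sum_comm]
    apply Finset.sum_eq_zero
    intro j _
    rw [← Finset.mul_sum, hu j, mul_zero]
  by_contra hcon
  push Not at hcon
  obtain ⟨r₁, hr₁⟩ := hcon
  -- choose maximal τ among nonzero with the same a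
  set T : Finset ι := Finset.univ.filter (fun r => a r = a r₁ ∧ u r ≠ 0) with hT
  have hTne : T.Nonempty := ⟨r₁, by simp [hT, hr₁]⟩
  obtain ⟨r₀, hr₀, hmax⟩ := Finset.exists_max_image T τ hTne
  simp only [hT, Finset.mem_filter, Finset.mem_univ, true_and] at hr₀ hmax
  obtain ⟨hr₀a, hr₀u⟩ := hr₀
  set α := a r₀ with hα
  obtain ⟨R₀, hR₀, hR₀'⟩ := Polynomial.exists_eq_pow_rootMultiplicity_mul_and_not_dvd Q hQ α
  have hR₀ne : R₀ ≠ 0 := by
    rintro rfl
    exact hR₀' (dvd_zero _)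
  have hR₀α : R₀.rootMultiplicity α = 0 := by
    rw [Polynomial.rootMultiplicity_eq_zero_iff]
    intro h
    exact absurd (Polynomial.dvd_iff_isRoot.mpr h) hR₀'
  set R : Polynomial ℂ := (Polynomial.X - Polynomial.C α) ^ (τ r₀) * R₀ with hR
  have hRne : R ≠ 0 := mul_ne_zero (pow_ne_zero _ (Polynomial.X_sub_C_ne_zero α)) hR₀ne
  have hRα : R.rootMultiplicity α = τ r₀ := by
    rw [hR, Polynomial.rootMultiplicity_mul (hR ▸ hRne), Polynomial.rootMultiplicity_X_sub_C_pow, hR₀α, add_zero]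
  have hRβ : ∀ β, β ≠ α → R.rootMultiplicity β = Q.rootMultiplicity β := by
    intro β hβ
    have h1 : ∀ k : ℕ, ((Polynomial.X - Polynomial.C α) ^ k).rootMultiplicity β = 0 := by
      intro k
      apply Polynomial.rootMultiplicity_eq_zero
      intro h
      rw [Polynomial.IsRoot, Polynomial.eval_pow, Polynomial.eval_sub, Polynomial.eval_X,
        Polynomial.eval_C] at h
      exact hβ (sub_eq_zero.mp (eq_zero_of_pow_eq_zero h))
    rw [hR, Polynomial.rootMultiplicity_mul (hR ▸ hRne), h1, zero_add]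
    conv_rhs => rw [hR₀]
    rw [Polynomial.rootMultiplicity_mul (hR₀ ▸ hQ), h1, zero_add]
  have han : ∀ β, AnalyticAt ℂ (fun s => R.eval s) β := fun β => R.differentiable.analyticAt β
  have hzero : ∀ r, r ≠ r₀ → u r * iteratedDeriv (τ r) (fun s => s ^ (0 : ℤ) * R.eval s) (a r) = 0 := by
    intro r hr
    by_cases har : a r = α
    · by_cases hur : u r = 0
      · rw [hur, zero_mul]
      · have h1 : τ r ≤ τ r₀ := hmax r ⟨har.trans hr₀a, hur⟩
        have h2 : τ r ≠ τ r₀ := fun h => hr (hinj r r₀ har h)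
        have h3 := (iteratedDeriv_zero_iff (ha r) (han (a r)) (τ r₀) 0).mpr (by
          rw [order_polynomial hRne, har, hRα]) (τ r) (lt_of_le_of_ne h1 h2)
        rw [h3, mul_zero]
    · have h3 := (iteratedDeriv_zero_iff (ha r) (han (a r)) (Q.rootMultiplicity (a r)) 0).mpr (by
          rw [order_polynomial hRne, hRβ _ har]) (τ r) (hτ r)
      rw [h3, mul_zero]
  have hsum := hpoly R
  rw [Finset.sum_eq_single r₀ (fun r _ hr => hzero r hr) (fun h => absurd (Finset.mem_univ _) h)] at hsum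
  rcases mul_eq_zero.mp hsum with h | h
  · exact hr₀u h
  · have h4 : ((τ r₀ + 1 : ℕ) : ℕ∞) ≤ analyticOrderAt (fun s => R.eval s) α := by
      rw [← iteratedDeriv_zero_iff (ha r₀) (han α) (τ r₀ + 1) 0]
      intro t ht
      rcases Nat.lt_succ_iff_lt_or_eq.mp ht with h5 | h5
      · exact (iteratedDeriv_zero_iff (ha r₀) (han α) (τ r₀) 0).mpr (by
          rw [order_polynomial hRne, hRα]) t h5
      · rw [h5]; exact h
    rw [order_polynomial hRne, hRα] at h4
    have := Nat.cast_le.mp h4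
    omega

end Pool.Agent.Lib.MP_432bca_pr
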