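import Pool.Agent.Lib.MP_432bca_pr.Gen
open MeasureTheory ProbabilityTheory Filter Topology

namespace Pool.Agent.Lib.MP_432bca_pr

set_option linter.unusedSectionVars false

/-- Order of a polynomial as an analytic function. -/
theorem order_polynomial {Q : Polynomial ℂ} (hQ : Q ≠ 0) (β : ℂ) :
    analyticOrderAt (fun s => Q.eval s) β = (Q.rootMultiplicity β : ℕ∞) := by
  obtain ⟨R, hR, hR'⟩ := Polynomial.exists_eq_pow_rootMultiplicity_mul_and_not_dvd Q hQ β
  have hRβ : R.eval β ≠ 0 := by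
    intro h
    exact hR' (Polynomial.dvd_iff_isRoot.mpr h)
  have han : ∀ (T : Polynomial ℂ), AnalyticAt ℂ (fun s => T.eval s) β := by
    intro T
    exact T.differentiable.analyticAt β
  rw [(han Q).analyticOrderAt_eq_natCast]
  refine ⟨fun s => R.eval s, han R, hRβ, Eventually.of_forall (fun z => ?_)⟩
  conv_lhs => rw [hR]
  simp

theorem sum_coeff_E {Q : Polynomial ℂ} {d : ℕ} (hd : Q.natDegree = d) {β : ℂ} (hβ : β ≠ 0) (t n : ℕ) :
    ∑ j ∈ Finset.range (d + 1), Q.coeff j * E β t ((n + j : ℕ) : ℤ) =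
      iteratedDeriv t (fun s => s ^ (n : ℤ) * Q.eval s) β := by
  have h1 : (fun s : ℂ => s ^ (n : ℤ) * Q.eval s) =
      fun s => ∑ j ∈ Finset.range (d + 1), Q.coeff j * s ^ ((n + j : ℕ) : ℤ) := by
    funext s
    rw [Polynomial.eval_eq_sum_range, hd, Finset.mul_sum]
    apply Finset.sum_congr rfl
    intro j _
    rw [zpow_natCast, zpow_natCast, pow_add]
    ring
  rw [h1, iteratedDeriv_fun_sum]
  · apply Finset.sum_congr rfl
    intro j _
    rw [iteratedDeriv_const_mul_field]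
    rfl
  · intro j _
    exact (analyticAt_const.mul (analyticAt_zpow hβ _)).contDiffAt

theorem polyRec_iff {Q : Polynomial ℂ} (hQ : Q ≠ 0) {d : ℕ} (hd : Q.natDegree = d) {β : ℂ} (hβ : β ≠ 0)
    (k : ℕ) : (∀ t < k, ∀ n : ℕ, ∑ j ∈ Finset.range (d + 1), Q.coeff j * E β t ((n + j : ℕ) : ℤ) = 0) ↔
      k ≤ Q.rootMultiplicity β := by
  have han : AnalyticAt ℂ (fun s => Q.eval s) β := Q.differentiable.analyticAt β
  have h := fun n : ℕ => iteratedDeriv_zero_iff hβ han k (n : ℤ)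
  constructor
  · intro h1
    have h2 := (h 0).mp (fun t ht => by rw [← sum_coeff_E hd hβ]; exact h1 t ht 0)
    rw [order_polynomial hQ] at h2
    exact_mod_cast h2
  · intro h1 t ht n
    rw [sum_coeff_E hd hβ]
    apply (h n).mpr _ t ht
    rw [order_polynomial hQ]
    exact_mod_cast h1

section Walk

variable {Ω : Type*} [MeasurableSpace Ω] (P : Measure Ω) [IsProbabilityMeasure P]
variable (S : Ω → ℤ) (hS : Measurable S) (d : ℕ) (hd : ∀ᵐ ω ∂P, -(d:ℤ) ≤ S ω)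

include hS hd

theorem rec_E_iff {β : ℂ} (t : ℕ) :
    Rec P S d (fun n : ℕ => E β t (n : ℤ)) ↔
      ∀ n : ℕ, E β t ((n + d : ℕ) : ℤ) = ∫ ω, E β t (((n + d : ℕ) : ℤ) + S ω) ∂P := by
  unfold Rec
  apply forall_congr'
  intro n
  have : ∫ ω, E β t ((((n : ℤ) + d + S ω).toNat : ℕ) : ℤ) ∂P =
      ∫ ω, E β t (((n + d : ℕ) : ℤ) + S ω) ∂P := by
    apply integral_congr_ae
    filter_upwards [hd] with ω hω
    congr 1
    omega
  rw [this]

theorem order_eq {Q : Polynomial ℂ} (hQ : Q.Monic) (hdeg : Q.natDegree = d)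
    (hchar : ∀ x : ℕ → ℂ, ((∃ C : ℝ, ∀ k, ‖x k‖ ≤ C) ∧ Rec P S d x) ↔
        ∀ n : ℕ, ∑ j ∈ Finset.range (d + 1), Q.coeff j * x (n + j) = 0)
    {β : ℂ} (h0 : 0 < ‖β‖) (h1 : ‖β‖ < 1) :
    analyticOrderAt (fun s => genFun P S s - 1) β = (Q.rootMultiplicity β : ℕ∞) := by
  have hβ : β ≠ 0 := norm_pos_iff.mp h0
  have hf : AnalyticAt ℂ (fun s => genFun P S s - 1) β :=
    (analyticAt_genFun P hS d hd h0 h1).sub analyticAt_const
  have hbdd : ∀ t, ∃ C : ℝ, ∀ k : ℕ, ‖E β t (k : ℤ)‖ ≤ C := by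
    intro t
    obtain ⟨C, hC⟩ := E_bounded h0 h1 t 0
    exact ⟨C, fun k => hC _ (by omega)⟩
  have key : ∀ k : ℕ, (k : ℕ∞) ≤ analyticOrderAt (fun s => genFun P S s - 1) β ↔
      (k : ℕ∞) ≤ (Q.rootMultiplicity β : ℕ∞) := by
    intro k
    rw [Nat.cast_le, ← polyRec_iff hQ.ne_zero hdeg hβ k]
    constructor
    · intro hk t ht n
      have h2 : Rec P S d (fun n : ℕ => E β t (n : ℤ)) := by
        rw [rec_E_iff P S hS d hd]
        intro n
        exact (E_rec_of_order P hS d hd h0 h1 k hk t ht _).symm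
      exact (hchar _).mp ⟨hbdd t, h2⟩ n
    · intro hk
      rw [← iteratedDeriv_zero_iff hβ hf k (d : ℤ)]
      intro t ht
      rw [← integral_E_sub P hS d hd h0 h1]
      have h2 := ((hchar (fun n : ℕ => E β t (n : ℤ))).mpr (fun n => hk t ht n)).2
      rw [rec_E_iff P S hS d hd] at h2
      have h3 := h2 0
      simp only [zero_add] at h3
      rw [← h3, sub_self]
  apply le_antisymm
  · by_contra hcon
    push Not at hcon
    have h2 : ((Q.rootMultiplicity β + 1 : ℕ) : ℕ∞) ≤ analyticOrderAt (fun s => genFun P S s - 1) β := by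
      rw [Nat.cast_add, Nat.cast_one]
      exact Order.add_one_le_of_lt hcon
    rw [key] at h2
    have := Nat.cast_le.mp h2
    omega
  · exact (key _).mpr le_rfl

theorem isRoot_iff {Q : Polynomial ℂ} (hQ : Q.Monic) (hdeg : Q.natDegree = d)
    (hchar : ∀ x : ℕ → ℂ, ((∃ C : ℝ, ∀ k, ‖x k‖ ≤ C) ∧ Rec P S d x) ↔
        ∀ n : ℕ, ∑ j ∈ Finset.range (d + 1), Q.coeff j * x (n + j) = 0)
    {β : ℂ} (h0 : 0 < ‖β‖) (h1 : ‖β‖ ≤ 1) :
    Q.IsRoot β ↔ genFun P S β = 1 := by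
  have hβ : β ≠ 0 := norm_pos_iff.mp h0
  have h2 : Q.IsRoot β ↔ 1 ≤ Q.rootMultiplicity β := by
    rw [← Polynomial.rootMultiplicity_pos hQ.ne_zero]
    exact Iff.rfl
  rw [h2, ← polyRec_iff hQ.ne_zero hdeg hβ 1]
  have h3 : (∀ t < 1, ∀ n : ℕ, ∑ j ∈ Finset.range (d + 1), Q.coeff j * E β t ((n + j : ℕ) : ℤ) = 0) ↔
      ∀ n : ℕ, ∑ j ∈ Finset.range (d + 1), Q.coeff j * (fun n : ℕ => E β 0 (n : ℤ)) (n + j) = 0 := by
    constructor
    · intro h n
      exact h 0 one_pos n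
    · intro h t ht n
      have : t = 0 := by omega
      subst this
      exact h n
  rw [h3, ← hchar (fun n : ℕ => E β 0 (n : ℤ)), rec_E_iff P S hS d hd]
  have hb : ∃ C : ℝ, ∀ k : ℕ, ‖E β 0 (k : ℤ)‖ ≤ C := by
    refine ⟨1, fun k => ?_⟩
    rw [E_zero, zpow_natCast, norm_pow]
    exact pow_le_one₀ (norm_nonneg _) h1
  have hval : ∀ n : ℤ, ∫ ω, E β 0 (n + S ω) ∂P = β ^ n * genFun P S β := by
    intro n
    rw [genFun_eq_integral P hS d hd h0 h1, ← integral_const_mul]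
    apply integral_congr_ae
    refine Eventually.of_forall (fun ω => ?_)
    simp only [E_zero]
    rw [zpow_add₀ hβ]
  constructor
  · rintro ⟨_, h⟩
    have := h 0
    rw [hval, E_zero] at this
    have hne : β ^ ((0 + d : ℕ) : ℤ) ≠ 0 := zpow_ne_zero _ hβ
    have h4 : β ^ ((0 + d : ℕ) : ℤ) * (genFun P S β - 1) = 0 := by
      rw [mul_sub, ← this, mul_one, sub_self]
    rcases mul_eq_zero.mp h4 with h5 | h5
    · exact absurd h5 hne
    · exact sub_eq_zero.mp h5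
  · intro h
    refine ⟨hb, fun n => ?_⟩
    rw [hval, h, mul_one, E_zero]

theorem root_norm {Q : Polynomial ℂ} (hdeg : Q.natDegree = d)
    (hchar : ∀ x : ℕ → ℂ, ((∃ C : ℝ, ∀ k, ‖x k‖ ≤ C) ∧ Rec P S d x) ↔
        ∀ n : ℕ, ∑ j ∈ Finset.range (d + 1), Q.coeff j * x (n + j) = 0)
    (hmin : P {ω | S ω = -(d:ℤ)} ≠ 0) (hd0 : 0 < d)
    {β : ℂ} (hβ : Q.IsRoot β) : 0 < ‖β‖ ∧ ‖β‖ ≤ 1 := by
  have hbd : (∃ C : ℝ, ∀ k : ℕ, ‖β ^ k‖ ≤ C) ∧ Rec P S d (fun k : ℕ => β ^ k) := by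
    rw [hchar]
    intro n
    have : ∑ j ∈ Finset.range (d + 1), Q.coeff j * β ^ (n + j) = β ^ n * Q.eval β := by
      rw [Polynomial.eval_eq_sum_range, hdeg, Finset.mul_sum]
      apply Finset.sum_congr rfl
      intro j _
      rw [pow_add]; ring
    rw [this, hβ, mul_zero]
  constructor
  · rw [norm_pos_iff]
    rintro rfl
    have h := hbd.2 0
    simp only [Nat.cast_zero, zero_add] at h
    rw [zero_pow hd0.ne'] at h
    have h1 : ∫ ω, (0:ℂ) ^ (((d:ℤ) + S ω).toNat) ∂P = ∫ ω, Set.indicator {ω | S ω = -(d:ℤ)} (fun _ => (1:ℂ)) ω ∂P := by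
      apply integral_congr_ae
      filter_upwards [hd] with ω hω
      by_cases hω' : S ω = -(d:ℤ)
      · rw [Set.indicator_of_mem (by exact hω'), hω']
        simp
      · rw [Set.indicator_of_notMem (by exact hω')]
        apply zero_pow
        omega
    rw [h1, integral_indicator_const] at h
    · simp only [Complex.real_smul, mul_one] at h
      have h2 : P.real {ω | S ω = -(d:ℤ)} = 0 := by
        exact_mod_cast h.symm
      rw [measureReal_def, ENNReal.toReal_eq_zero_iff] at h2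
      rcases h2 with h2 | h2
      · exact hmin h2
      · exact measure_ne_top _ _ h2
    · exact hS (measurableSet_singleton _)
  · by_contra hcon
    push Not at hcon
    obtain ⟨C, hC⟩ := hbd.1
    obtain ⟨k, hk⟩ := pow_unbounded_of_one_lt C hcon
    have := hC k
    rw [norm_pow] at this
    linarith

theorem rootMultiplicity_boundary {Q : Polynomial ℂ} (hQ : Q.Monic) (hdeg : Q.natDegree = d)
    (hchar : ∀ x : ℕ → ℂ, ((∃ C : ℝ, ∀ k, ‖x k‖ ≤ C) ∧ Rec P S d x) ↔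
        ∀ n : ℕ, ∑ j ∈ Finset.range (d + 1), Q.coeff j * x (n + j) = 0)
    {β : ℂ} (h1 : ‖β‖ = 1) (hβ : Q.IsRoot β) : Q.rootMultiplicity β = 1 := by
  have hβ0 : β ≠ 0 := by
    rintro rfl
    simp at h1
  have hpos : 0 < Q.rootMultiplicity β := (Polynomial.rootMultiplicity_pos hQ.ne_zero).mpr hβ
  by_contra hne
  have h2 : 2 ≤ Q.rootMultiplicity β := by omega
  rw [← polyRec_iff hQ.ne_zero hdeg hβ0 2] at h2
  obtain ⟨C, hC⟩ := ((hchar (fun n : ℕ => E β 1 (n : ℤ))).mpr (fun n => h2 1 (by norm_num) n)).1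
  obtain ⟨k, hk⟩ := exists_nat_gt C
  have h3 := hC k
  have h4 : E β 1 (k : ℤ) = k * β ^ ((k : ℤ) - 1) := by
    unfold E
    rw [iteratedDeriv_one, deriv_zpow]
    simp
  rw [h4, norm_mul, norm_zpow, h1, one_zpow, mul_one, Complex.norm_natCast] at h3
  linarith

end Walk

end Pool.Agent.Lib.MP_432bca_pr
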